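import Pool.Agent.Zk70.WP.Big

set_option autoImplicit false

namespace Pool.Agent.Zk70.WP

open Polynomial Finset Complex Pool.Agent.R80.WF

/-- the sum over the coefficients below `g` -/
noncomputable def SS (f g : ℕ) : ℤ :=
  ∑ i ∈ range g, (ab f g i - bb g i) / 3 * (dickson 1 (2 : ℤ) (g - i)).coeff 0

/-- the last coefficient -/
noncomputable def AG (f g : ℕ) : ℤ :=
  Int.bmod (10 * (bb g g + 3 * (2 - SS f g)) - 9 * (if f = g then 1 else 0)) 18

noncomputable def aa (f g i : ℕ) : ℤ := if i = g then AG f g else ab f g i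

theorem AG_spec (f g : ℕ) : |AG f g| ≤ 9 ∧
    (∃ k, AG f g = bb g g + 3 * (2 - SS f g) + 9 * k) ∧ (f = g → AG f g % 2 = 1) ∧
    (f ≠ g → AG f g % 2 = 0) := by
  unfold AG
  set N : ℤ := 10 * (bb g g + 3 * (2 - SS f g)) - 9 * (if f = g then 1 else 0) with hN
  have h1 := Int.le_bmod (x := N) (m := 18) (by norm_num)
  have h2 := Int.bmod_le (x := N) (m := 18) (by norm_num)
  obtain ⟨k, hk⟩ : ∃ k : ℤ, Int.bmod N 18 = N + 18 * k := by
    have h3 := Int.dvd_bmod_sub_self (x := N) (m := 18)
    obtain ⟨k, hk⟩ := h3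
    exact ⟨k, by push_cast at hk; linarith⟩
  refine ⟨?_, ?_, ?_, ?_⟩
  · rw [abs_le]
    omega
  · split_ifs at hN with h
    · exact ⟨bb g g + 3 * (2 - SS f g) - 1 + 2 * k, by rw [hk, hN]; ring⟩
    · exact ⟨bb g g + 3 * (2 - SS f g) + 2 * k, by rw [hk, hN]; ring⟩
  · intro h
    rw [if_pos h] at hN
    omega
  · intro h
    rw [if_neg h] at hN
    omega

theorem good18 {f g : ℕ} (hg : 18 ≤ g) (hf : 2 ≤ f) (hfg : f ≤ g) : Good 2 g f := by
  obtain ⟨hAG1, ⟨kk, hAG2⟩, hAG3, hAG4⟩ := AG_spec f g
  set a : ℕ → ℤ := aa f g with ha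
  set c : ℕ → ℤ := fun i => (a i - bb g i) / 3 with hc
  have haL : ∀ i, i < g → a i = ab f g i := fun i hi => by
    rw [ha, aa, if_neg (by omega)]
  have haG : a g = AG f g := by rw [ha, aa, if_pos rfl]
  obtain ⟨he1, he2, he3, i0, hi0, he4, he5⟩ :=
    ent_spec (min f 18) (g % 9) (by omega) (by omega) (Nat.mod_lt _ (by norm_num))
  have ha18 : ∀ i < 18, a i = (tabE (min f 18) (g % 9)).A i := by
    intro i hi
    by_cases h : i < g
    · rw [haL i h, ab, if_pos hi]
    · omega
  have hac : ∀ i ≤ g, a i = bb g i + 3 * c i := by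
    intro i hi
    have h1 : (a i - bb g i) % 3 = 0 := by
      by_cases h : i < g
      · rw [haL i h]
        exact (ab_spec hf i).1
      · have : i = g := by omega
        subst this
        rw [haG]
        omega
    simp only [hc]
    omega
  have hc0 : (HH g c).coeff 0 % 3 = 2 := by
    have h1 : (HH g c).coeff 0 = SS f g + c g := by
      unfold HH SS
      rw [coeff_add, finsetSum_coeff, coeff_C_zero]
      congr 1
      refine sum_congr rfl fun i hi => ?_
      rw [coeff_C_mul]
      simp only [hc]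
      rw [haL i (mem_range.1 hi)]
    have h2 : c g = (2 - SS f g) + 3 * kk := by
      simp only [hc]
      rw [haG]
      omega
    rw [h1, h2]
    omega
  refine good_of (a := a) (c := c) (by omega) hfg ?_ hac hc0 ?_ ?_ ?_ ?_
  · rw [ha18 0 (by norm_num)]
    exact he2
  · intro x hx
    have h1 := root2 2 g a (by norm_num) (by omega) (fun t => slit hg _ he1 a ha18 ?_ ?_ t) x hx
    · exact_mod_cast h1
    · intro i hi1 hi2
      rw [haL i hi2, ab, if_neg (by omega)]
      exact (gen_spec f (bb g i) i).2.1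
    · rw [haG]
      exact hAG1
  · refine ⟨i0, by omega, ?_, ?_⟩
    · rw [ha18 i0 (by omega)]
      exact he4
    · rw [ha18 (i0 + 1) (by omega)]
      exact he5
  · by_cases h : f < g
    · rw [haL f h]
      exact (ab_spec hf f).2.1 rfl
    · have : f = g := by omega
      rw [this, haG]
      exact hAG3 this
  · intro i hi1 hi2
    by_cases h : i < g
    · rw [haL i h]
      exact (ab_spec hf i).2.2 hi1
    · have : i = g := by omega
      subst this
      rw [haG]
      exact hAG4 (by omega)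

end Pool.Agent.Zk70.WP
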