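import Pool.Agent.Zk70.WP.Sgn
import Pool.Agent.Zk70.WP.Big2

/-!
# The cases `7 ≤ g ≤ 17`, and all `g ≥ 7`
-/

set_option autoImplicit false

namespace Pool.Agent.Zk70.WP

open Pool.Agent.R80.WF

def sm7 : List Sm := [
  ⟨7, 2, [1, 0, -1, 0, 0, 0, 4, 6], [-2896, -2660, -1925, -672, 672, 1925, 2660, 2896]⟩,
  ⟨7, 3, [1, 0, -1, -3, 0, 6, -2, 0], [-2896, -2599, -1699, -989, 534, 2007, 2746, 2896]⟩,
  ⟨7, 4, [1, 0, 2, 0, 3, 0, 4, 6], [-2896, -2473, -1599, -562, 562, 1599, 2473, 2896]⟩,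
  ⟨7, 5, [1, 0, -1, 0, 3, 3, -2, 0], [-2896, -2630, -1910, -804, 755, 2012, 2577, 2896]⟩,
  ⟨7, 6, [1, 0, -1, 0, 0, -3, 1, 12], [-2896, -2642, -1958, -667, 713, 1869, 2685, 2896]⟩,
  ⟨7, 7, [1, 0, -1, 0, 0, 3, 1, -9], [-2896, -2685, -1869, -713, 667, 1958, 2642, 2896]⟩]

theorem sm7_ok : (((List.range 6).all fun j => decide ((sm7.getD j ⟨0, 0, [], []⟩).g = 7) &&
    decide ((sm7.getD j ⟨0, 0, [], []⟩).f = j + 2) && (sm7.getD j ⟨0, 0, [], []⟩).chk) = true) := by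
  decide +kernel

theorem goodS7 (f : ℕ) (hf : 2 ≤ f) (hfg : f ≤ 7) : Good 2 7 f := by
  have h := sm7_ok
  rw [List.all_eq_true] at h
  have h1 := h (f - 2) (List.mem_range.2 (by omega))
  rw [Bool.and_eq_true, Bool.and_eq_true, decide_eq_true_iff, decide_eq_true_iff] at h1
  obtain ⟨⟨h2, h3⟩, h4⟩ := h1
  have h5 := Sm.good _ h4
  rw [h2, h3, show f - 2 + 2 = f by omega] at h5
  exact h5

def sm8 : List Sm := [
  ⟨8, 2, [1, 0, 1, 0, -2, 0, -2, 6, -2], [-2896, -2682, -1936, -937, 39, 880, 1959, 2676, 2896]⟩,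
  ⟨8, 3, [1, 0, 1, 3, -2, 6, 4, -6, 22], [-2896, -2776, -2045, -765, 124, 1030, 1881, 2551, 2896]⟩,
  ⟨8, 4, [1, 0, 1, 0, 1, -6, 4, -6, -2], [-2896, -2552, -2072, -1060, 163, 952, 1903, 2666, 2896]⟩,
  ⟨8, 5, [1, 0, 1, 0, 4, 3, 4, 6, 10], [-2896, -2597, -1905, -1167, -51, 1169, 2025, 2526, 2896]⟩,
  ⟨8, 6, [1, 0, 1, 0, 1, 0, 1, -6, 4], [-2896, -2622, -1967, -1015, -31, 1067, 1940, 2629, 2896]⟩,
  ⟨8, 7, [1, 0, 1, 0, 1, 0, 1, -3, 4], [-2896, -2624, -1961, -1028, -16, 1054, 1947, 2628, 2896]⟩,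
  ⟨8, 8, [1, 0, 1, 0, 1, 3, 1, 6, -5], [-2896, -2653, -1907, -1029, -62, 1052, 2003, 2596, 2896]⟩]

theorem sm8_ok : (((List.range 7).all fun j => decide ((sm8.getD j ⟨0, 0, [], []⟩).g = 8) &&
    decide ((sm8.getD j ⟨0, 0, [], []⟩).f = j + 2) && (sm8.getD j ⟨0, 0, [], []⟩).chk) = true) := by
  decide +kernel

theorem goodS8 (f : ℕ) (hf : 2 ≤ f) (hfg : f ≤ 8) : Good 2 8 f := by
  have h := sm8_ok
  rw [List.all_eq_true] at h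
  have h1 := h (f - 2) (List.mem_range.2 (by omega))
  rw [Bool.and_eq_true, Bool.and_eq_true, decide_eq_true_iff, decide_eq_true_iff] at h1
  obtain ⟨⟨h2, h3⟩, h4⟩ := h1
  have h5 := Sm.good _ h4
  rw [h2, h3, show f - 2 + 2 = f by omega] at h5
  exact h5

def sm9 : List Sm := [
  ⟨9, 2, [1, 0, 3, 0, 0, 0, -6, -6, 12, -18], [-2896, -2679, -2029, -869, -403, 324, 977, 1989,
    2690, 2896]⟩,
  ⟨9, 3, [1, 0, 0, -3, 0, 0, 6, 6, -6, -18], [-2896, -2650, -2058, -1512, -632, 279, 1436, 2368,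
    2768, 2896]⟩,
  ⟨9, 4, [1, 0, 0, 0, -3, 0, 0, 0, 6, 6], [-2896, -2764, -2247, -1348, -415, 415, 1348, 2247,
    2764, 2896]⟩,
  ⟨9, 5, [1, 0, 0, 0, 3, 3, 0, 0, 6, 18], [-2896, -2701, -2172, -1488, -636, 543, 1604, 2208,
    2642, 2896]⟩,
  ⟨9, 6, [1, 0, 0, 0, 0, 3, -3, -6, 0, -6], [-2896, -2749, -2205, -1353, -608, 479, 1534, 2186,
    2716, 2896]⟩,
  ⟨9, 7, [1, 0, 0, 0, 0, 0, 3, 3, 0, 0], [-2896, -2714, -2229, -1462, -462, 474, 1435, 2253, 2705,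
    2896]⟩,
  ⟨9, 8, [1, 0, 0, 0, 0, 0, 0, 0, 3, 6], [-2896, -2721, -2221, -1443, -509, 509, 1443, 2221, 2721,
    2896]⟩,
  ⟨9, 9, [1, 0, 0, 0, 0, 0, 0, 0, 3, -3], [-2896, -2721, -2221, -1443, -509, 509, 1443, 2221,
    2721, 2896]⟩]

theorem sm9_ok : (((List.range 8).all fun j => decide ((sm9.getD j ⟨0, 0, [], []⟩).g = 9) &&
    decide ((sm9.getD j ⟨0, 0, [], []⟩).f = j + 2) && (sm9.getD j ⟨0, 0, [], []⟩).chk) = true) := by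
  decide +kernel

theorem goodS9 (f : ℕ) (hf : 2 ≤ f) (hfg : f ≤ 9) : Good 2 9 f := by
  have h := sm9_ok
  rw [List.all_eq_true] at h
  have h1 := h (f - 2) (List.mem_range.2 (by omega))
  rw [Bool.and_eq_true, Bool.and_eq_true, decide_eq_true_iff, decide_eq_true_iff] at h1
  obtain ⟨⟨h2, h3⟩, h4⟩ := h1
  have h5 := Sm.good _ h4
  rw [h2, h3, show f - 2 + 2 = f by omega] at h5
  exact h5

def sm10 : List Sm := [
  ⟨10, 2, [1, 0, -1, 0, 0, 0, 0, 6, 0, -6, 12], [-2896, -2793, -2387, -1790, -969, 41, 921, 1773,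
    2436, 2768, 2896]⟩,
  ⟨10, 3, [1, 0, -1, -3, 0, 6, 6, -6, -12, -12, 42], [-2896, -2738, -2322, -1653, -1005, -330,
    823, 1909, 2519, 2797, 2896]⟩,
  ⟨10, 4, [1, 0, 2, 0, 3, 0, 0, 0, -6, 6, -24], [-2896, -2706, -2156, -1553, -842, -12, 866, 1537,
    2163, 2705, 2896]⟩,
  ⟨10, 5, [1, 0, -1, 0, 0, -3, 0, 6, 0, -6, 12], [-2896, -2765, -2394, -1845, -962, 100, 924,
    1720, 2425, 2797, 2896]⟩,
  ⟨10, 6, [1, 0, -1, 0, 0, 0, 3, -6, -6, 6, 18], [-2896, -2757, -2445, -1800, -879, -43, 929,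
    1819, 2392, 2783, 2896]⟩,
  ⟨10, 7, [1, 0, -1, 0, 0, 0, 0, 3, 6, -6, -18], [-2896, -2783, -2412, -1768, -971, 23, 941, 1764,
    2434, 2771, 2896]⟩,
  ⟨10, 8, [1, 0, -1, 0, 0, 0, 0, 3, 3, -6, -12], [-2896, -2785, -2406, -1776, -966, 23, 936, 1772,
    2428, 2773, 2896]⟩,
  ⟨10, 9, [1, 0, -1, 0, 0, 0, 3, 3, -6, -3, 18], [-2896, -2777, -2405, -1814, -918, 22, 893, 1804,
    2431, 2764, 2896]⟩,
  ⟨10, 10, [1, 0, -1, 0, 0, 0, 0, -3, 0, 6, 3], [-2896, -2775, -2422, -1779, -931, -23, 961, 1783,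
    2400, 2787, 2896]⟩]

theorem sm10_ok : (((List.range 9).all fun j => decide ((sm10.getD j ⟨0, 0, [], []⟩).g = 10) &&
    decide ((sm10.getD j ⟨0, 0, [], []⟩).f = j + 2) && (sm10.getD j ⟨0, 0, [], []⟩).chk) = true) := by
  decide +kernel

theorem goodS10 (f : ℕ) (hf : 2 ≤ f) (hfg : f ≤ 10) : Good 2 10 f := by
  have h := sm10_ok
  rw [List.all_eq_true] at h
  have h1 := h (f - 2) (List.mem_range.2 (by omega))
  rw [Bool.and_eq_true, Bool.and_eq_true, decide_eq_true_iff, decide_eq_true_iff] at h1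
  obtain ⟨⟨h2, h3⟩, h4⟩ := h1
  have h5 := Sm.good _ h4
  rw [h2, h3, show f - 2 + 2 = f by omega] at h5
  exact h5

def sm11 : List Sm := [
  ⟨11, 2, [1, 0, 1, 0, -2, 0, -6, 0, 0, 0, 30, -12], [-2896, -2801, -2418, -1737, -1082, -364,
    364, 1082, 1737, 2418, 2801, 2896]⟩,
  ⟨11, 3, [1, 0, 1, 3, -2, 0, 0, -6, -6, 6, 12, 0], [-2896, -2824, -2504, -1903, -1033, -65, 536,
    1114, 1597, 2317, 2765, 2896]⟩,
  ⟨11, 4, [1, 0, 1, 0, 1, 0, 0, 0, 0, 0, 6, 6], [-2896, -2758, -2372, -1811, -1161, -396, 396,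
    1161, 1811, 2372, 2758, 2896]⟩,
  ⟨11, 5, [1, 0, 1, 0, 1, 3, 0, 6, 0, 6, 6, 12], [-2896, -2785, -2369, -1749, -1153, -442, 357,
    1167, 1873, 2376, 2726, 2896]⟩,
  ⟨11, 6, [1, 0, 1, 0, 1, 0, 3, 0, 6, 0, 6, -12], [-2896, -2741, -2389, -1838, -1127, -383, 383,
    1127, 1838, 2389, 2741, 2896]⟩,
  ⟨11, 7, [1, 0, 1, 0, 1, 0, 0, -3, 0, -6, -6, -12], [-2896, -2751, -2385, -1816, -1132, -421,
    395, 1170, 1819, 2355, 2765, 2896]⟩,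
  ⟨11, 8, [1, 0, 1, 0, 1, 0, 0, 0, -3, 0, -6, 6], [-2896, -2761, -2363, -1822, -1157, -392, 392,
    1157, 1822, 2363, 2761, 2896]⟩,
  ⟨11, 9, [1, 0, 1, 0, 1, 0, 0, 0, -3, -3, -12, -6], [-2896, -2760, -2365, -1820, -1157, -396,
    400, 1146, 1831, 2358, 2762, 2896]⟩,
  ⟨11, 10, [1, 0, 1, 0, 1, 0, 0, 0, 0, -3, 3, -6], [-2896, -2757, -2375, -1807, -1164, -397, 402,
    1153, 1818, 2369, 2759, 2896]⟩,
  ⟨11, 11, [1, 0, 1, 0, 1, 0, 0, 0, 0, 0, 3, -3], [-2896, -2758, -2372, -1812, -1159, -399, 399,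
    1159, 1812, 2372, 2758, 2896]⟩]

theorem sm11_ok : (((List.range 10).all fun j => decide ((sm11.getD j ⟨0, 0, [], []⟩).g = 11) &&
    decide ((sm11.getD j ⟨0, 0, [], []⟩).f = j + 2) && (sm11.getD j ⟨0, 0, [], []⟩).chk) = true) := by
  decide +kernel

theorem goodS11 (f : ℕ) (hf : 2 ≤ f) (hfg : f ≤ 11) : Good 2 11 f := by
  have h := sm11_ok
  rw [List.all_eq_true] at h
  have h1 := h (f - 2) (List.mem_range.2 (by omega))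
  rw [Bool.and_eq_true, Bool.and_eq_true, decide_eq_true_iff, decide_eq_true_iff] at h1
  obtain ⟨⟨h2, h3⟩, h4⟩ := h1
  have h5 := Sm.good _ h4
  rw [h2, h3, show f - 2 + 2 = f by omega] at h5
  exact h5

def sm12 : List Sm := [
  ⟨12, 2, [1, 0, 3, 0, 6, 0, 8, -6, 12, -12, 18, -6, 18], [-2896, -2717, -2352, -1857, -1204,
    -707, -54, 694, 1357, 1777, 2323, 2741, 2896]⟩,
  ⟨12, 3, [1, 0, 0, 3, 0, 0, 2, 0, 0, -12, 6, 6, -48], [-2896, -2830, -2614, -2113, -1450, -655,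
    227, 873, 1464, 1935, 2395, 2770, 2896]⟩,
  ⟨12, 4, [1, 0, 0, 0, 3, 0, 2, 0, 6, 6, 12, 6, 12], [-2896, -2760, -2453, -2077, -1533, -820,
    -10, 833, 1541, 2050, 2476, 2752, 2896]⟩,
  ⟨12, 5, [1, 0, 0, 0, 0, -3, 2, 0, 0, 0, 6, -6, 6], [-2896, -2769, -2489, -2107, -1503, -704, 77,
    736, 1394, 2030, 2527, 2808, 2896]⟩,
  ⟨12, 6, [1, 0, 0, 0, 0, 0, -1, 0, 0, 0, 0, 6, 6], [-2896, -2802, -2508, -2039, -1446, -767, 3,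
    762, 1450, 2036, 2509, 2801, 2896]⟩,
  ⟨12, 7, [1, 0, 0, 0, 0, 0, 2, -3, 0, 0, 0, -12, 0], [-2896, -2782, -2517, -2079, -1433, -707,
    -34, 733, 1464, 2059, 2500, 2797, 2896]⟩,
  ⟨12, 8, [1, 0, 0, 0, 0, 0, -1, 0, -3, 0, 6, -6, 0], [-2896, -2804, -2506, -2030, -1468, -746,
    -3, 750, 1463, 2033, 2504, 2804, 2896]⟩,
  ⟨12, 9, [1, 0, 0, 0, 0, 0, -1, 0, 0, -3, 0, 6, 6], [-2896, -2800, -2512, -2035, -1446, -772, 10,
    756, 1450, 2040, 2505, 2803, 2896]⟩,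
  ⟨12, 10, [1, 0, 0, 0, 0, 0, -1, 0, 0, 0, 3, 6, 0], [-2896, -2801, -2509, -2036, -1449, -765, 3,
    760, 1453, 2033, 2510, 2801, 2896]⟩,
  ⟨12, 11, [1, 0, 0, 0, 0, 0, -1, 0, 0, 0, 0, -3, 6], [-2896, -2801, -2509, -2037, -1449, -763,
    -1, 765, 1447, 2038, 2508, 2802, 2896]⟩,
  ⟨12, 12, [1, 0, 0, 0, 0, 0, -1, 0, 0, 0, 0, -3, 15], [-2896, -2801, -2509, -2037, -1449, -763,
    -1, 765, 1447, 2038, 2508, 2802, 2896]⟩]

theorem sm12_ok : (((List.range 11).all fun j => decide ((sm12.getD j ⟨0, 0, [], []⟩).g = 12) &&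
    decide ((sm12.getD j ⟨0, 0, [], []⟩).f = j + 2) && (sm12.getD j ⟨0, 0, [], []⟩).chk) = true) := by
  decide +kernel

theorem goodS12 (f : ℕ) (hf : 2 ≤ f) (hfg : f ≤ 12) : Good 2 12 f := by
  have h := sm12_ok
  rw [List.all_eq_true] at h
  have h1 := h (f - 2) (List.mem_range.2 (by omega))
  rw [Bool.and_eq_true, Bool.and_eq_true, decide_eq_true_iff, decide_eq_true_iff] at h1
  obtain ⟨⟨h2, h3⟩, h4⟩ := h1
  have h5 := Sm.good _ h4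
  rw [h2, h3, show f - 2 + 2 = f by omega] at h5
  exact h5

def sm13 : List Sm := [
  ⟨13, 2, [1, 0, -1, 0, 0, 0, 2, 0, -2, 0, 6, -6, -6, 18], [-2896, -2818, -2609, -2239, -1725,
    -1054, -337, 335, 1058, 1719, 2245, 2605, 2819, 2896]⟩,
  ⟨13, 3, [1, 0, -1, 3, 0, 0, 2, -6, 10, 0, 0, 12, 6, 78], [-2896, -2842, -2733, -2308, -1671,
    -986, -292, 491, 1224, 1711, 2097, 2521, 2788, 2896]⟩,
  ⟨13, 4, [1, 0, -1, 0, 3, 0, -4, 0, 4, -6, -6, 6, 0, -30], [-2896, -2807, -2566, -2193, -1745,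
    -1210, -421, 433, 1178, 1772, 2195, 2550, 2814, 2896]⟩,
  ⟨13, 5, [1, 0, -1, 0, 0, -3, 2, 6, -2, -6, -6, 0, 6, 30], [-2896, -2813, -2571, -2254, -1781,
    -1091, -283, 450, 981, 1662, 2250, 2618, 2832, 2896]⟩,
  ⟨13, 6, [1, 0, -1, 0, 0, 0, -1, 0, 4, 0, 0, 6, -6, -24], [-2896, -2826, -2614, -2228, -1685,
    -1091, -383, 384, 1086, 1691, 2222, 2617, 2825, 2896]⟩,
  ⟨13, 7, [1, 0, -1, 0, 0, 0, 2, -3, -2, 6, 0, 0, 6, -18], [-2896, -2816, -2598, -2266, -1717,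
    -1022, -367, 326, 1078, 1726, 2226, 2606, 2824, 2896]⟩,
  ⟨13, 8, [1, 0, -1, 0, 0, 0, 2, 0, 1, 0, -6, -6, 6, 18], [-2896, -2817, -2606, -2252, -1712,
    -1049, -363, 362, 1053, 1706, 2257, 2602, 2818, 2896]⟩,
  ⟨13, 9, [1, 0, -1, 0, 0, 0, 2, 0, 1, 3, -6, -6, 6, 12], [-2896, -2819, -2601, -2254, -1715,
    -1042, -367, 358, 1060, 1702, 2255, 2607, 2815, 2896]⟩,
  ⟨13, 10, [1, 0, -1, 0, 0, 0, 2, 0, -2, 0, -3, 0, 6, -12], [-2896, -2821, -2600, -2249, -1720,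
    -1049, -349, 349, 1049, 1720, 2249, 2600, 2821, 2896]⟩,
  ⟨13, 11, [1, 0, -1, 0, 0, 0, 2, 0, -2, 0, 3, -3, 0, 12], [-2896, -2819, -2606, -2242, -1723,
    -1052, -341, 340, 1054, 1720, 2245, 2604, 2819, 2896]⟩,
  ⟨13, 12, [1, 0, -1, 0, 0, 0, 2, 0, -2, 0, -3, -3, 3, 12], [-2896, -2821, -2601, -2248, -1721,
    -1049, -349, 348, 1051, 1718, 2251, 2598, 2821, 2896]⟩,
  ⟨13, 13, [1, 0, -1, 0, 0, 0, 2, 0, -2, -3, -3, 6, 6, -9], [-2896, -2819, -2603, -2249, -1714,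
    -1058, -345, 353, 1041, 1726, 2248, 2597, 2823, 2896]⟩]

theorem sm13_ok : (((List.range 12).all fun j => decide ((sm13.getD j ⟨0, 0, [], []⟩).g = 13) &&
    decide ((sm13.getD j ⟨0, 0, [], []⟩).f = j + 2) && (sm13.getD j ⟨0, 0, [], []⟩).chk) = true) := by
  decide +kernel

theorem goodS13 (f : ℕ) (hf : 2 ≤ f) (hfg : f ≤ 13) : Good 2 13 f := by
  have h := sm13_ok
  rw [List.all_eq_true] at h
  have h1 := h (f - 2) (List.mem_range.2 (by omega))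
  rw [Bool.and_eq_true, Bool.and_eq_true, decide_eq_true_iff, decide_eq_true_iff] at h1
  obtain ⟨⟨h2, h3⟩, h4⟩ := h1
  have h5 := Sm.good _ h4
  rw [h2, h3, show f - 2 + 2 = f by omega] at h5
  exact h5

def sm14 : List Sm := [
  ⟨14, 2, [1, 0, 1, 0, -2, 0, -4, 0, 2, 0, 2, 0, 0, 12, 6], [-2896, -2836, -2620, -2224, -1681,
    -1112, -588, -4, 594, 1108, 1684, 2223, 2621, 2836, 2896]⟩,
  ⟨14, 3, [1, 0, 1, 3, -2, 0, 2, -6, 2, 6, 8, 12, 0, 6, -54], [-2896, -2837, -2672, -2337, -1797,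
    -1118, -376, 263, 680, 1135, 1546, 2134, 2571, 2808, 2896]⟩,
  ⟨14, 4, [1, 0, 1, 0, 1, 0, 2, 0, 2, 0, 2, 0, 6, -6, 12], [-2896, -2805, -2568, -2215, -1758,
    -1200, -607, 1, 604, 1202, 1756, 2216, 2567, 2806, 2896]⟩,
  ⟨14, 5, [1, 0, 1, 0, 1, 3, 2, 0, 2, -6, 8, -12, -18, 0, -42], [-2896, -2810, -2601, -2218,
    -1675, -1173, -622, -92, 568, 1256, 1818, 2223, 2527, 2800, 2896]⟩,
  ⟨14, 6, [1, 0, 1, 0, 1, 0, -1, 0, -4, 0, -4, 0, 0, 6, 18], [-2896, -2820, -2570, -2183, -1743,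
    -1228, -629, -1, 632, 1226, 1745, 2182, 2570, 2820, 2896]⟩,
  ⟨14, 7, [1, 0, 1, 0, 1, 0, -1, 3, -4, 0, -4, 0, 0, -12, 36], [-2896, -2824, -2572, -2165, -1740,
    -1258, -634, 38, 626, 1197, 1748, 2201, 2568, 2815, 2896]⟩,
  ⟨14, 8, [1, 0, 1, 0, 1, 0, -1, 0, -1, 0, -4, 0, -6, -12, -30], [-2896, -2817, -2571, -2194,
    -1732, -1217, -652, 2, 647, 1222, 1729, 2195, 2571, 2817, 2896]⟩,
  ⟨14, 9, [1, 0, 1, 0, 1, 0, 2, 0, 2, 3, 2, 6, 6, -6, 12], [-2896, -2808, -2563, -2216, -1764,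
    -1193, -607, -4, 604, 1210, 1750, 2215, 2572, 2803, 2896]⟩,
  ⟨14, 10, [1, 0, 1, 0, 1, 0, 2, 0, 2, 3, -1, 6, 0, 0, 12], [-2896, -2809, -2559, -2220, -1764,
    -1190, -609, -6, 610, 1205, 1750, 2217, 2569, 2804, 2896]⟩,
  ⟨14, 11, [1, 0, 1, 0, 1, 0, -1, 0, -1, 0, -1, -3, 6, -12, -6], [-2896, -2816, -2576, -2188,
    -1736, -1220, -647, -1, 648, 1222, 1730, 2192, 2573, 2816, 2896]⟩,
  ⟨14, 12, [1, 0, 1, 0, 1, 0, 2, 0, 2, 0, -1, 3, 3, 12, 24], [-2896, -2807, -2563, -2220, -1756,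
    -1198, -611, 1, 610, 1195, 1761, 2215, 2566, 2806, 2896]⟩,
  ⟨14, 13, [1, 0, 1, 0, 1, 0, -1, 0, -1, 0, -4, 3, -9, 9, -42], [-2896, -2818, -2569, -2198,
    -1727, -1222, -650, 2, 648, 1220, 1732, 2193, 2572, 2817, 2896]⟩,
  ⟨14, 14, [1, 0, 1, 0, 1, 0, 2, 0, 2, 0, -1, 3, 9, 12, 39], [-2896, -2807, -2564, -2218, -1758,
    -1195, -612, 1, 611, 1193, 1763, 2213, 2567, 2806, 2896]⟩]

theorem sm14_ok : (((List.range 13).all fun j => decide ((sm14.getD j ⟨0, 0, [], []⟩).g = 14) &&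
    decide ((sm14.getD j ⟨0, 0, [], []⟩).f = j + 2) && (sm14.getD j ⟨0, 0, [], []⟩).chk) = true) := by
  decide +kernel

theorem goodS14 (f : ℕ) (hf : 2 ≤ f) (hfg : f ≤ 14) : Good 2 14 f := by
  have h := sm14_ok
  rw [List.all_eq_true] at h
  have h1 := h (f - 2) (List.mem_range.2 (by omega))
  rw [Bool.and_eq_true, Bool.and_eq_true, decide_eq_true_iff, decide_eq_true_iff] at h1
  obtain ⟨⟨h2, h3⟩, h4⟩ := h1
  have h5 := Sm.good _ h4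
  rw [h2, h3, show f - 2 + 2 = f by omega] at h5
  exact h5

def sm15 : List Sm := [
  ⟨15, 2, [1, 0, -3, 0, 0, 0, 4, 0, 0, 0, 0, 0, -8, -12, 18, 48], [-2896, -2886, -2772, -2504,
    -2084, -1544, -942, -308, 309, 940, 1547, 2081, 2507, 2769, 2887, 2896]⟩,
  ⟨15, 3, [1, 0, 0, -3, 0, 0, 4, 0, 0, 0, 0, 0, -8, 0, -6, 48], [-2896, -2813, -2574, -2246,
    -1876, -1449, -972, -462, 138, 809, 1448, 2004, 2437, 2707, 2849, 2896]⟩,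
  ⟨15, 4, [1, 0, 0, 0, 3, 0, -2, 0, 0, 0, -6, 0, -8, -6, 12, 0], [-2896, -2826, -2606, -2280,
    -1944, -1540, -1008, -347, 347, 1006, 1543, 1940, 2283, 2604, 2827, 2896]⟩,
  ⟨15, 5, [1, 0, 0, 0, 0, -3, -2, 0, 0, 0, 6, 6, 4, -6, 18, -42], [-2896, -2825, -2631, -2331,
    -1961, -1499, -922, -257, 376, 920, 1401, 1870, 2333, 2678, 2849, 2896]⟩,
  ⟨15, 6, [1, 0, 0, 0, 0, 0, 1, 0, 0, 0, 0, 0, 10, -6, 0, 0], [-2896, -2829, -2645, -2344, -1952,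
    -1447, -880, -300, 300, 878, 1449, 1949, 2346, 2644, 2830, 2896]⟩,
  ⟨15, 7, [1, 0, 0, 0, 0, 0, 1, -3, 0, 0, 0, 0, -2, -6, 12, 6], [-2896, -2824, -2640, -2364,
    -1956, -1427, -868, -313, 272, 898, 1469, 1939, 2334, 2644, 2836, 2896]⟩,
  ⟨15, 8, [1, 0, 0, 0, 0, 0, 1, 0, 3, 0, 0, 0, 4, -6, 12, 18], [-2896, -2826, -2645, -2355, -1946,
    -1434, -892, -308, 308, 890, 1436, 1943, 2357, 2644, 2826, 2896]⟩,
  ⟨15, 9, [1, 0, 0, 0, 0, 0, 1, 0, 0, -3, 0, 0, 4, -6, -6, -48], [-2896, -2828, -2646, -2350,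
    -1943, -1447, -890, -291, 304, 870, 1450, 1955, 2345, 2640, 2832, 2896]⟩,
  ⟨15, 10, [1, 0, 0, 0, 0, 0, 1, 0, 0, 3, 3, 0, 4, -6, 12, 30], [-2896, -2831, -2644, -2342,
    -1955, -1450, -874, -295, 284, 890, 1453, 1938, 2351, 2648, 2827, 2896]⟩,
  ⟨15, 11, [1, 0, 0, 0, 0, 0, 1, 0, 0, 0, 3, 3, 4, 6, 0, -12], [-2896, -2829, -2644, -2349, -1945,
    -1451, -883, -290, 292, 879, 1454, 1946, 2345, 2647, 2828, 2896]⟩,
  ⟨15, 12, [1, 0, 0, 0, 0, 0, 1, 0, 0, 0, 0, -3, 7, -6, -6, -12], [-2896, -2829, -2646, -2344,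
    -1950, -1450, -877, -300, 298, 881, 1447, 1949, 2348, 2642, 2830, 2896]⟩,
  ⟨15, 13, [1, 0, 0, 0, 0, 0, 1, 0, 0, 0, 0, 0, 1, 3, 0, 0], [-2896, -2830, -2642, -2348, -1948,
    -1449, -881, -295, 294, 882, 1448, 1949, 2348, 2643, 2830, 2896]⟩,
  ⟨15, 14, [1, 0, 0, 0, 0, 0, 1, 0, 0, 0, 0, 0, 1, 0, 3, 6], [-2896, -2830, -2643, -2348, -1949,
    -1448, -882, -294, 294, 882, 1448, 1949, 2348, 2643, 2830, 2896]⟩,
  ⟨15, 15, [1, 0, 0, 0, 0, 0, 1, 0, 0, 0, 0, 0, 1, 0, -3, -3], [-2896, -2830, -2642, -2348, -1948,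
    -1448, -881, -295, 295, 881, 1448, 1948, 2348, 2642, 2830, 2896]⟩]

theorem sm15_ok : (((List.range 14).all fun j => decide ((sm15.getD j ⟨0, 0, [], []⟩).g = 15) &&
    decide ((sm15.getD j ⟨0, 0, [], []⟩).f = j + 2) && (sm15.getD j ⟨0, 0, [], []⟩).chk) = true) := by
  decide +kernel

theorem goodS15 (f : ℕ) (hf : 2 ≤ f) (hfg : f ≤ 15) : Good 2 15 f := by
  have h := sm15_ok
  rw [List.all_eq_true] at h
  have h1 := h (f - 2) (List.mem_range.2 (by omega))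
  rw [Bool.and_eq_true, Bool.and_eq_true, decide_eq_true_iff, decide_eq_true_iff] at h1
  obtain ⟨⟨h2, h3⟩, h4⟩ := h1
  have h5 := Sm.good _ h4
  rw [h2, h3, show f - 2 + 2 = f by omega] at h5
  exact h5

def sm16 : List Sm := [
  ⟨16, 2, [1, 0, -1, 0, 0, 0, -2, 0, 2, 0, 6, 6, -2, 0, -16, -24, 12], [-2896, -2853, -2711,
    -2454, -2076, -1647, -1176, -606, 4, 602, 1168, 1661, 2068, 2452, 2717, 2850, 2896]⟩,
  ⟨16, 3, [1, 0, -1, -3, 0, 0, 4, 0, 2, 0, 6, 0, 4, 0, -10, -12, -60], [-2896, -2819, -2621,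
    -2366, -2063, -1687, -1200, -673, -121, 480, 1091, 1659, 2141, 2528, 2781, 2872, 2896]⟩,
  ⟨16, 4, [1, 0, -1, 0, 3, 0, -2, 0, 2, 0, 0, 0, -8, -6, 2, -12, -60], [-2896, -2835, -2661,
    -2411, -2105, -1722, -1240, -642, 1, 641, 1239, 1725, 2101, 2415, 2659, 2836, 2896]⟩,
  ⟨16, 5, [1, 0, -1, 0, 0, 3, -2, 0, 2, -6, 6, 0, 4, -6, -4, 12, -24], [-2896, -2864, -2739,
    -2453, -2035, -1593, -1180, -644, -28, 574, 1164, 1702, 2125, 2445, 2685, 2840, 2896]⟩,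
  ⟨16, 6, [1, 0, -1, 0, 0, 0, 1, 0, 2, 0, -6, 0, 10, -6, -10, 6, 12], [-2896, -2844, -2700, -2460,
    -2117, -1655, -1128, -601, 2, 598, 1130, 1655, 2115, 2462, 2698, 2845, 2896]⟩,
  ⟨16, 7, [1, 0, -1, 0, 0, 0, 1, 3, 2, 0, -6, -6, 4, 6, 2, -6, 36], [-2896, -2851, -2702, -2446,
    -2104, -1670, -1149, -586, 12, 607, 1117, 1635, 2127, 2480, 2691, 2839, 2896]⟩,
  ⟨16, 8, [1, 0, -1, 0, 0, 0, 1, 0, -1, 0, 0, 0, 4, -6, 2, 18, -24], [-2896, -2846, -2702, -2452,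
    -2112, -1667, -1137, -577, 3, 573, 1140, 1667, 2111, 2454, 2700, 2847, 2896]⟩,
  ⟨16, 9, [1, 0, -1, 0, 0, 0, 1, 0, -1, 3, 0, 0, 10, -12, -16, 18, 18], [-2896, -2848, -2701,
    -2446, -2117, -1673, -1125, -580, -4, 576, 1143, 1668, 2102, 2460, 2703, 2844, 2896]⟩,
  ⟨16, 10, [1, 0, -1, 0, 0, 0, 1, 0, -1, 0, 3, 0, -8, 12, -10, -24, 72], [-2896, -2847, -2697,
    -2462, -2104, -1667, -1148, -563, -5, 571, 1144, 1667, 2107, 2457, 2700, 2846, 2896]⟩,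
  ⟨16, 11, [1, 0, -1, 0, 0, 0, 1, 0, -1, 0, 3, -3, -8, 0, -10, 12, 36], [-2896, -2846, -2700,
    -2459, -2103, -1670, -1144, -566, -2, 568, 1148, 1664, 2107, 2460, 2697, 2848, 2896]⟩,
  ⟨16, 12, [1, 0, -1, 0, 0, 0, 1, 0, -1, 3, 3, 0, -5, 0, -4, -6, 54], [-2896, -2849, -2697, -2453,
    -2112, -1669, -1138, -566, -8, 569, 1152, 1664, 2100, 2462, 2703, 2843, 2896]⟩,
  ⟨16, 13, [1, 0, -1, 0, 0, 0, 1, 0, 2, 0, -6, -3, 1, 9, 20, -6, -48], [-2896, -2845, -2698,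
    -2462, -2116, -1652, -1137, -590, -5, 598, 1137, 1646, 2121, 2460, 2697, 2845, 2896]⟩,
  ⟨16, 14, [1, 0, -1, 0, 0, 0, 1, 0, -1, -3, -3, 3, 7, 0, 17, 0, -54], [-2896, -2846, -2701,
    -2455, -2113, -1658, -1143, -582, 11, 577, 1127, 1669, 2122, 2444, 2699, 2849, 2896]⟩,
  ⟨16, 15, [1, 0, -1, 0, 0, 0, 1, 0, -1, 0, 0, 0, 1, 0, -1, 3, 6], [-2896, -2847, -2700, -2455,
    -2111, -1666, -1139, -574, 0, 574, 1140, 1666, 2111, 2455, 2700, 2847, 2896]⟩,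
  ⟨16, 16, [1, 0, -1, 0, 0, 0, 1, 0, 2, 0, -3, 0, -5, 6, 17, -12, -9], [-2896, -2845, -2696,
    -2465, -2113, -1649, -1143, -586, -2, 589, 1141, 1649, 2115, 2463, 2698, 2844, 2896]⟩]

theorem sm16_ok : (((List.range 15).all fun j => decide ((sm16.getD j ⟨0, 0, [], []⟩).g = 16) &&
    decide ((sm16.getD j ⟨0, 0, [], []⟩).f = j + 2) && (sm16.getD j ⟨0, 0, [], []⟩).chk) = true) := by
  decide +kernel

theorem goodS16 (f : ℕ) (hf : 2 ≤ f) (hfg : f ≤ 16) : Good 2 16 f := by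
  have h := sm16_ok
  rw [List.all_eq_true] at h
  have h1 := h (f - 2) (List.mem_range.2 (by omega))
  rw [Bool.and_eq_true, Bool.and_eq_true, decide_eq_true_iff, decide_eq_true_iff] at h1
  obtain ⟨⟨h2, h3⟩, h4⟩ := h1
  have h5 := Sm.good _ h4
  rw [h2, h3, show f - 2 + 2 = f by omega] at h5
  exact h5

def sm17 : List Sm := [
  ⟨17, 2, [1, 0, 1, 0, -2, 0, -2, 0, 4, 0, 4, 0, 4, 6, 10, -12, -8, -90], [-2896, -2848, -2712,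
    -2464, -2099, -1644, -1160, -692, -240, 235, 702, 1151, 1648, 2098, 2464, 2713, 2848, 2896]⟩,
  ⟨17, 3, [1, 0, 1, 3, -2, 0, 4, -6, -2, 6, 4, 6, 10, 6, -2, -24, -38, 150], [-2896, -2852, -2735,
    -2528, -2200, -1746, -1189, -562, 98, 375, 664, 1186, 1587, 1992, 2397, 2675, 2837, 2896]⟩,
  ⟨17, 4, [1, 0, 1, 0, 1, 0, -2, 0, -2, 0, -2, 6, -2, -6, -14, 12, -38, -72], [-2896, -2847,
    -2683, -2414, -2066, -1675, -1259, -819, -271, 285, 790, 1277, 1678, 2056, 2418, 2685, 2845,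
    2896]⟩,
  ⟨17, 5, [1, 0, 1, 0, 1, -3, -2, 0, -2, 0, 4, 6, -8, -6, -2, -6, 22, 6], [-2896, -2840, -2667,
    -2395, -2072, -1729, -1334, -796, -195, 349, 805, 1225, 1606, 2052, 2436, 2702, 2851, 2896]⟩,
  ⟨17, 6, [1, 0, 1, 0, 1, 0, 1, 0, -2, 0, -2, 0, 4, -12, -2, -24, 22, -30], [-2896, -2840, -2678,
    -2407, -2089, -1714, -1251, -754, -252, 256, 746, 1258, 1713, 2084, 2414, 2674, 2842, 2896]⟩,
  ⟨17, 7, [1, 0, 1, 0, 1, 0, 1, 3, -2, 0, -2, 0, -8, 6, 16, 0, 4, 96], [-2896, -2845, -2679,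
    -2406, -2073, -1702, -1292, -769, -209, 264, 743, 1228, 1705, 2113, 2414, 2669, 2838, 2896]⟩,
  ⟨17, 8, [1, 0, 1, 0, 1, 0, 1, 0, 1, 0, -2, 0, -2, 0, -2, 0, -2, 6], [-2896, -2839, -2672, -2419,
    -2096, -1697, -1245, -769, -263, 263, 769, 1245, 1697, 2096, 2419, 2672, 2839, 2896]⟩,
  ⟨17, 9, [1, 0, 1, 0, 1, 0, 1, 0, 1, -3, 4, -6, 4, -6, 10, -18, 10, -36], [-2896, -2834, -2679,
    -2426, -2082, -1690, -1264, -767, -246, 256, 761, 1248, 1702, 2093, 2417, 2673, 2840, 2896]⟩,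
  ⟨17, 10, [1, 0, 1, 0, 1, 0, 1, 0, 1, 0, 1, 0, -2, 0, -2, 0, 4, 6], [-2896, -2838, -2673, -2421,
    -2092, -1695, -1252, -766, -256, 256, 766, 1252, 1695, 2092, 2421, 2673, 2838, 2896]⟩,
  ⟨17, 11, [1, 0, 1, 0, 1, 0, 1, 0, 1, -3, 1, -9, -8, -12, -20, 0, -38, 54], [-2896, -2836, -2674,
    -2429, -2081, -1692, -1261, -768, -250, 257, 763, 1250, 1693, 2100, 2419, 2667, 2843, 2896]⟩,
  ⟨17, 12, [1, 0, 1, 0, 1, 0, 1, 0, 1, 0, 1, 0, 1, 0, -2, 0, -2, 6], [-2896, -2838, -2674, -2421,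
    -2091, -1697, -1251, -765, -259, 259, 765, 1251, 1697, 2091, 2421, 2674, 2838, 2896]⟩,
  ⟨17, 13, [1, 0, 1, 0, 1, 0, 1, 0, 1, 0, 1, 0, 1, -3, -2, 0, 4, 12], [-2896, -2838, -2674, -2420,
    -2091, -1698, -1249, -767, -258, 260, 764, 1252, 1696, 2091, 2421, 2673, 2838, 2896]⟩,
  ⟨17, 14, [1, 0, 1, 0, 1, 0, 1, 0, 1, 0, 1, 0, 1, 0, 1, 0, 4, 6], [-2896, -2838, -2674, -2421,
    -2091, -1697, -1251, -766, -258, 258, 766, 1251, 1697, 2091, 2421, 2674, 2838, 2896]⟩,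
  ⟨17, 15, [1, 0, 1, 0, 1, 0, 1, 0, 1, 0, 1, 0, 1, 0, -2, -3, -2, -6], [-2896, -2838, -2674,
    -2421, -2091, -1697, -1251, -765, -259, 259, 766, 1250, 1697, 2090, 2421, 2674, 2838, 2896]⟩,
  ⟨17, 16, [1, 0, 1, 0, 1, 0, 1, 0, 1, 0, 1, 0, 1, 0, -2, 0, 1, 6], [-2896, -2838, -2674, -2421,
    -2091, -1697, -1251, -765, -259, 259, 765, 1251, 1697, 2091, 2421, 2674, 2838, 2896]⟩,
  ⟨17, 17, [1, 0, 1, 0, 1, 0, 1, 0, 1, 0, 1, 0, 1, 0, -2, 0, -2, -3], [-2896, -2838, -2674, -2421,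
    -2091, -1697, -1251, -765, -259, 259, 765, 1251, 1697, 2091, 2421, 2674, 2838, 2896]⟩]

theorem sm17_ok : (((List.range 16).all fun j => decide ((sm17.getD j ⟨0, 0, [], []⟩).g = 17) &&
    decide ((sm17.getD j ⟨0, 0, [], []⟩).f = j + 2) && (sm17.getD j ⟨0, 0, [], []⟩).chk) = true) := by
  decide +kernel

theorem goodS17 (f : ℕ) (hf : 2 ≤ f) (hfg : f ≤ 17) : Good 2 17 f := by
  have h := sm17_ok
  rw [List.all_eq_true] at h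
  have h1 := h (f - 2) (List.mem_range.2 (by omega))
  rw [Bool.and_eq_true, Bool.and_eq_true, decide_eq_true_iff, decide_eq_true_iff] at h1
  obtain ⟨⟨h2, h3⟩, h4⟩ := h1
  have h5 := Sm.good _ h4
  rw [h2, h3, show f - 2 + 2 = f by omega] at h5
  exact h5

/-- all `g ≥ 7` and `2 ≤ f ≤ g` -/
theorem main7 (g f : ℕ) (hg : 7 ≤ g) (hf : 2 ≤ f) (hfg : f ≤ g) : Good 2 g f := by
  by_cases h : 18 ≤ g
  · exact good18 h hf hfg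
  · interval_cases g
    · exact goodS7 f hf hfg
    · exact goodS8 f hf hfg
    · exact goodS9 f hf hfg
    · exact goodS10 f hf hfg
    · exact goodS11 f hf hfg
    · exact goodS12 f hf hfg
    · exact goodS13 f hf hfg
    · exact goodS14 f hf hfg
    · exact goodS15 f hf hfg
    · exact goodS16 f hf hfg
    · exact goodS17 f hf hfg

end Pool.Agent.Zk70.WP
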