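import Pool.Agent.Zk70.WP.Tab
import Pool.Agent.R80.WF.Asm

/-!
# The case `g ≥ 18`
-/

set_option autoImplicit false

namespace Pool.Agent.Zk70.WP

open Polynomial Finset Complex Pool.Agent.R80.WF Pool.Agent.R80.WF.RootAux

theorem ent_of (f g0 : ℕ) (hf : 2 ≤ f) (hf2 : f ≤ 18) (hg : g0 < 9) :
    okEnt f g0 (tabE f g0) = true := by
  have h := tab_ok
  rw [List.all_eq_true] at h
  have h1 := h (f - 2) (List.mem_range.2 (by omega))
  rw [List.all_eq_true] at h1
  have h2 := h1 g0 (List.mem_range.2 hg)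
  rw [show f - 2 + 2 = f by omega] at h2
  exact h2

/-- multiplication by the auxiliary factor -/
theorem hh_mul (c : ℕ → ℝ) (g k : ℕ) (dn t : ℝ) :
    (hh c g t * (4 + (dn : ℂ) * U (-(k * t)))).re =
      ∑ i ∈ range g, c i * (4 * Real.cos (i * t) + dn * Real.cos ((i + k : ℕ) * t)) +
        c g / 2 * (4 * Real.cos (g * t) + dn * Real.cos ((g + k : ℕ) * t)) := by
  have hterm : ∀ (A : ℝ) (i : ℕ), ((A : ℂ) * U (-(i * t)) * (4 + (dn : ℂ) * U (-(k * t)))).re =
      A * (4 * Real.cos (i * t) + dn * Real.cos ((i + k : ℕ) * t)) := by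
    intro A i
    have e1 : (A : ℂ) * U (-(i * t)) * (4 + (dn : ℂ) * U (-(k * t))) =
        ((4 * A : ℝ) : ℂ) * U (-(i * t)) + ((A * dn : ℝ) : ℂ) * U (-((i + k : ℕ) * t)) := by
      have e2 : U (-((i + k : ℕ) * t)) = U (-(i * t)) * U (-(k * t)) := by
        rw [← U_add]
        congr 1
        push_cast
        ring
      rw [e2]
      push_cast
      ring
    rw [e1, add_re, re_ofReal_mul, re_ofReal_mul, U_re, U_re, Real.cos_neg, Real.cos_neg]
    ring
  rw [hh, add_mul, sum_mul, add_re, re_sum]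
  congr 1
  · exact sum_congr rfl fun i _ => hterm (c i) i
  · exact hterm (c g / 2) g

theorem slit {g : ℕ} (hg : 18 ≤ g) (e : Ent) (he : e.chk = true) (a : ℕ → ℤ)
    (ha : ∀ i < 18, a i = e.A i) (hb : ∀ i, 18 ≤ i → i < g → |a i| ≤ 3) (hgg : |a g| ≤ 9) (t : ℝ) :
    hh (fun i => (a i : ℝ) * (Real.sqrt ((2 : ℕ) : ℝ))⁻¹ ^ i) g t ∈ slitPlane := by
  have hdn : |(e.dn : ℝ)| ≤ 3 := by
    have h := he
    unfold Ent.chk at h
    rw [Bool.and_eq_true, Bool.and_eq_true, decide_eq_true_iff, decide_eq_true_iff] at h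
    exact_mod_cast h.1.2
  have hblk := blk_pos e he t
  obtain ⟨hs1, hs2⟩ := sq_bounds
  have hs0 := sq_pos
  have hsq := sq_sq
  by_contra hcon
  rw [mem_slitPlane_iff] at hcon
  push Not at hcon
  set w := hh (fun i => (a i : ℝ) * (Real.sqrt ((2 : ℕ) : ℝ))⁻¹ ^ i) g t with hw
  obtain ⟨hre, him⟩ := hcon
  have hD : 0 < (4 + ((e.dn : ℝ) : ℂ) * U (-(e.k * t))).re := by
    rw [add_re, re_ofReal_mul, U_re]
    have h1 := Real.abs_cos_le_one (-(e.k * t))
    have h2 : |(e.dn : ℝ) * Real.cos (-(e.k * t))| ≤ 3 := by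
      rw [abs_mul]
      have := abs_nonneg (e.dn : ℝ)
      nlinarith [abs_nonneg (Real.cos (-(e.k * t)))]
    have h3 := (abs_le.1 h2).1
    have h4 : (4 : ℂ).re = 4 := by norm_num
    rw [h4]
    linarith
  have hle : (w * (4 + ((e.dn : ℝ) : ℂ) * U (-(e.k * t)))).re ≤ 0 := by
    rw [mul_re, him, zero_mul, sub_zero]
    exact mul_nonpos_of_nonpos_of_nonneg hre hD.le
  rw [hw, hh_mul] at hle
  obtain ⟨m, rfl⟩ : ∃ m, g = 18 + m := ⟨g - 18, by omega⟩
  rw [sum_range_add] at hle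
  have hc : ∀ i : ℕ, |4 * Real.cos (i * t) + e.dn * Real.cos ((i + e.k : ℕ) * t)| ≤
      4 + |(e.dn : ℝ)| := by
    intro i
    refine (abs_add_le _ _).trans ?_
    rw [abs_mul, abs_mul]
    have h3 := Real.abs_cos_le_one (i * t)
    have h4 := Real.abs_cos_le_one ((i + e.k : ℕ) * t)
    have h5 := abs_nonneg (e.dn : ℝ)
    rw [abs_of_pos (by norm_num : (0 : ℝ) < 4)]
    nlinarith
  set M : ℝ := 4 + |(e.dn : ℝ)| with hM
  have hM0 : 0 < M := by positivity
  have hsqdef : (Real.sqrt ((2 : ℕ) : ℝ))⁻¹ = sq := rfl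
  simp only [hsqdef] at hle
  -- the block
  have h1 : ∑ i ∈ range 18, (a i : ℝ) * sq ^ i * (4 * Real.cos (i * t) + e.dn *
      Real.cos ((i + e.k : ℕ) * t)) = ∑ i ∈ range 18, (e.A i : ℝ) * sq ^ i *
        (4 * Real.cos (i * t) + e.dn * Real.cos ((i + e.k : ℕ) * t)) := by
    refine sum_congr rfl fun i hi => ?_
    rw [ha i (mem_range.1 hi)]
  -- the tail
  have h2 : -(∑ x ∈ range m, 3 * sq ^ (18 + x) * M) ≤ ∑ x ∈ range m, (a (18 + x) : ℝ) *
      sq ^ (18 + x) * (4 * Real.cos ((18 + x : ℕ) * t) + e.dn *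
      Real.cos ((18 + x + e.k : ℕ) * t)) := by
    rw [← sum_neg_distrib]
    refine sum_le_sum fun x hx => ?_
    have h3 := hb (18 + x) (by omega) (by have := mem_range.1 hx; omega)
    have h3' : |(a (18 + x) : ℝ)| ≤ 3 := by exact_mod_cast h3
    have h4 := hc (18 + x)
    have h5 : |(a (18 + x) : ℝ) * sq ^ (18 + x) * (4 * Real.cos ((18 + x : ℕ) * t) + e.dn *
      Real.cos ((18 + x + e.k : ℕ) * t))| ≤ 3 * sq ^ (18 + x) * M := by
      rw [abs_mul, abs_mul, abs_of_pos (pow_pos hs0 _)]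
      exact mul_le_mul (mul_le_mul_of_nonneg_right h3' (by positivity)) h4 (abs_nonneg _)
        (by positivity)
    exact (abs_le.1 h5).1
  have h6 : -(9 * sq ^ (18 + m) / 2 * M) ≤ (a (18 + m) : ℝ) * sq ^ (18 + m) / 2 *
      (4 * Real.cos ((18 + m : ℕ) * t) + e.dn * Real.cos ((18 + m + e.k : ℕ) * t)) := by
    have h3' : |(a (18 + m) : ℝ)| ≤ 9 := by exact_mod_cast hgg
    have h4 := hc (18 + m)
    have h5 : |(a (18 + m) : ℝ) * sq ^ (18 + m) / 2 * (4 * Real.cos ((18 + m : ℕ) * t) + e.dn *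
      Real.cos ((18 + m + e.k : ℕ) * t))| ≤ 9 * sq ^ (18 + m) / 2 * M := by
      rw [abs_mul, abs_div, abs_mul, abs_of_pos (pow_pos hs0 _), abs_two]
      refine mul_le_mul ?_ h4 (abs_nonneg _) (by positivity)
      have := mul_le_mul_of_nonneg_right h3' (pow_pos hs0 (18 + m)).le
      linarith
    exact (abs_le.1 h5).1
  -- geometric series
  have h7 : ∑ x ∈ range m, 3 * sq ^ (18 + x) * M = 3 * sq ^ 18 * M * ((1 - sq ^ m) / (1 - sq)) := by
    have e1 : (1 - sq ^ m) / (1 - sq) = ∑ x ∈ range m, sq ^ x := by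
      rw [geom_sum_eq (by linarith), ← neg_div_neg_eq]
      congr 1 <;> ring
    rw [e1, mul_sum]
    refine sum_congr rfl fun x _ => ?_
    rw [pow_add]
    ring
  have h8 : sq ^ 18 = 1 / 512 := by
    have : sq ^ 18 = (sq ^ 2) ^ 9 := by rw [← pow_mul]
    rw [this, hsq]
    norm_num
  have h9 : 0 < sq ^ m := pow_pos hs0 m
  have h10 : sq ^ m ≤ 1 := pow_le_one₀ hs0.le (by linarith)
  have h11 : ∑ x ∈ range m, 3 * sq ^ (18 + x) * M + 9 * sq ^ (18 + m) / 2 * M ≤ M * 0.02006 := by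
    rw [h7, pow_add, h8]
    have h12 : (1 - sq ^ m) / (1 - sq) ≤ 3.4143 * (1 - sq ^ m) := by
      rw [div_le_iff₀ (by linarith)]
      have : 0 ≤ 1 - sq ^ m := by linarith
      nlinarith
    have h13 : 3 * (1 / 512) * M * ((1 - sq ^ m) / (1 - sq)) ≤
        3 * (1 / 512) * M * (3.4143 * (1 - sq ^ m)) :=
      mul_le_mul_of_nonneg_left h12 (by positivity)
    nlinarith
  rw [h1] at hle
  have h14 : (M * 21600000) / 2 ^ 30 ≤ ∑ i ∈ range 18, (e.A i : ℝ) * sq ^ i *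
        (4 * Real.cos (i * t) + e.dn * Real.cos ((i + e.k : ℕ) * t)) := by
    rw [div_le_iff₀ (by positivity)]
    linarith
  have h15 : M * 0.02006 < (M * 21600000) / 2 ^ 30 := by
    rw [lt_div_iff₀ (by positivity)]
    nlinarith
  linarith

/-! ### arithmetic -/

theorem choose_per (g j : ℕ) (hj : j < 9) : ((g.choose j : ℤ) - ((g % 9).choose j : ℤ)) % 3 = 0 := by
  have : Fact (Nat.Prime 3) := ⟨Nat.prime_three⟩
  have key : ∀ n : ℕ, n.choose j ≡ (n % 3).choose (j % 3) * ((n / 3 % 3).choose (j / 3)) [MOD 3] := by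
    intro n
    have h1 := Choose.choose_modEq_choose_mod_mul_choose_div_nat (p := 3) (n := n) (k := j)
    have h2 := Choose.choose_modEq_choose_mod_mul_choose_div_nat (p := 3) (n := n / 3) (k := j / 3)
    have h3 : j / 3 / 3 = 0 := by omega
    have h4 : j / 3 % 3 = j / 3 := by omega
    rw [h3, h4, Nat.choose_zero_right, mul_one] at h2
    exact h1.trans (h2.mul_left _)
  have h1 := key g
  have h2 := key (g % 9)
  have h3 : g % 9 % 3 = g % 3 := by omega
  have h4 : g % 9 / 3 % 3 = g / 3 % 3 := by omega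
  rw [h3, h4] at h2
  have h5 := h1.trans h2.symm
  have h6 : ((g.choose j : ℕ) : ℤ) ≡ ((g % 9).choose j : ℕ) [ZMOD 3] := by exact_mod_cast h5
  exact Int.emod_emod_of_dvd _ (dvd_refl 3) ▸ (Int.emod_eq_emod_iff_emod_sub_eq_zero).1 h6

theorem bb_per (g i : ℕ) (hi : i < 18) : (bb g i - bb (g % 9) i) % 3 = 0 := by
  unfold bb
  split_ifs with h
  · have h1 := choose_per g (i / 2) (by omega)
    obtain ⟨k, hk⟩ := Int.dvd_of_emod_eq_zero h1
    have h2 : (g.choose (i / 2) : ℤ) * 2 ^ (i / 2) - ((g % 9).choose (i / 2) : ℤ) * 2 ^ (i / 2) =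
        3 * (k * 2 ^ (i / 2)) := by
      linear_combination (2 : ℤ) ^ (i / 2) * hk
    rw [h2]
    exact Int.mul_emod_right 3 _
  · simp

/-- small representatives -/
def gen (f : ℕ) (b : ℤ) (i : ℕ) : ℤ :=
  if i < f then (if b % 3 = 0 then 0 else if b % 3 = 1 then 1 else -1)
  else if i = f then (if b % 3 = 0 then 3 else if b % 3 = 1 then 1 else -1)
  else (if b % 3 = 0 then 0 else if b % 3 = 1 then -2 else 2)

theorem gen_spec (f : ℕ) (b : ℤ) (i : ℕ) : (gen f b i - b) % 3 = 0 ∧ |gen f b i| ≤ 3 ∧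
    (i = f → gen f b i % 2 = 1) ∧ (f < i → gen f b i % 2 = 0) := by
  unfold gen
  split_ifs <;> refine ⟨by omega, by norm_num, fun h => ?_, fun h => ?_⟩ <;> omega

/-- the coefficients below `g` -/
def ab (f g i : ℕ) : ℤ := if i < 18 then (tabE (min f 18) (g % 9)).A i else gen f (bb g i) i

/-- the entry conditions -/
theorem ent_spec (f g0 : ℕ) (hf : 2 ≤ f) (hf2 : f ≤ 18) (hg : g0 < 9) :
    (tabE f g0).chk = true ∧ (tabE f g0).A 0 = 1 ∧
    (∀ i < 18, ((tabE f g0).A i - bb g0 i) % 3 = 0 ∧ (i = f → (tabE f g0).A i % 2 = 1) ∧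
      (f < i → (tabE f g0).A i % 2 = 0)) ∧
    ∃ i < 17, (tabE f g0).A i ≠ 0 ∧ (tabE f g0).A (i + 1) ≠ 0 := by
  have h := ent_of f g0 hf hf2 hg
  unfold okEnt at h
  rw [Bool.and_eq_true, Bool.and_eq_true, Bool.and_eq_true, decide_eq_true_iff,
    List.all_eq_true, List.any_eq_true] at h
  obtain ⟨⟨⟨h1, h2⟩, h3⟩, i, hi, h4⟩ := h
  refine ⟨h1, h2, fun i hi => ?_, i, List.mem_range.1 hi, ?_⟩
  · have h5 := h3 i (List.mem_range.2 hi)
    rw [Bool.and_eq_true, decide_eq_true_iff] at h5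
    refine ⟨h5.1, fun h6 => ?_, fun h6 => ?_⟩
    · have h7 := h5.2
      rw [if_neg (by omega), if_pos h6, decide_eq_true_iff] at h7
      exact h7
    · have h7 := h5.2
      rw [if_neg (by omega), if_neg (by omega), decide_eq_true_iff] at h7
      exact h7
  · rw [Bool.and_eq_true, decide_eq_true_iff, decide_eq_true_iff] at h4
    exact h4

theorem ab_spec {f g : ℕ} (hf : 2 ≤ f) (i : ℕ) : (ab f g i - bb g i) % 3 = 0 ∧
    (i = f → ab f g i % 2 = 1) ∧ (f < i → ab f g i % 2 = 0) := by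
  unfold ab
  split_ifs with h
  · obtain ⟨-, -, h1, -⟩ := ent_spec (min f 18) (g % 9) (by omega) (by omega) (Nat.mod_lt _ (by norm_num))
    obtain ⟨h2, h3, h4⟩ := h1 i h
    have h5 := bb_per g i h
    refine ⟨by omega, fun h6 => h3 (by omega), fun h6 => h4 (by omega)⟩
  · obtain ⟨h1, -, h2, h3⟩ := gen_spec f (bb g i) i
    exact ⟨h1, h2, h3⟩

/-- assembling a good polynomial -/
theorem good_of {g f : ℕ} (hg : 1 ≤ g) (hf : f ≤ g) {a c : ℕ → ℤ} (ha0 : a 0 = 1)
    (hac : ∀ i ≤ g, a i = bb g i + 3 * c i) (hc0 : (HH g c).coeff 0 % 3 = 2)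
    (hroot : ∀ x : ℂ, aeval x (PP 2 g a) = 0 → ‖x‖ = Real.sqrt 2 ∧ x.im ≠ 0)
    (hcons : ∃ i, i + 1 ≤ g ∧ a i ≠ 0 ∧ a (i + 1) ≠ 0)
    (hodd : a f % 2 = 1) (heven : ∀ i, f < i → i ≤ g → a i % 2 = 0) : Good 2 g f := by
  have hcoef : ∀ k, k ≤ g → a k ≠ 0 → (PP 2 g a).coeff k ≠ 0 := by
    intro k hk hak
    rw [coeff_PP]
    by_cases h : k < g
    · rw [if_pos h]
      exact mul_ne_zero (by positivity) hak
    · have : k = g := by omega
      subst this
      rw [if_neg (lt_irrefl _), if_pos rfl]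
      exact hak
  obtain ⟨h1, h2⟩ := crit hg ha0 hac hc0 hroot (by
    intro l hl
    obtain ⟨i, hi, h3, h4⟩ := hcons
    by_cases h5 : l ∣ i
    · refine ⟨i + 1, hcoef _ hi h4, fun h6 => ?_⟩
      have h7 := (Nat.dvd_add_right h5).1 h6
      exact hl.one_lt.ne' (Nat.dvd_one.1 h7)
    · exact ⟨i, hcoef _ (by omega) h3, h5⟩)
  refine ⟨PP 2 g a, monic_PP (by omega) ha0, natDegree_PP (by omega) ha0, h1,
    fun x hx => by exact_mod_cast (hroot x hx).1, ?_, ?_, h2⟩
  · intro i hi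
    rw [coeff_PP]
    split_ifs with h3 h4 h5
    · exact Dvd.dvd.mul_right (dvd_pow_self _ (by omega)) _
    · subst h4
      exact Int.dvd_of_emod_eq_zero (heven i (by omega) le_rfl)
    · exact Int.dvd_of_emod_eq_zero (heven (2 * g - i) (by omega) (by omega))
    · exact dvd_zero _
  · rw [coeff_PP, if_neg (by omega)]
    by_cases h3 : 2 * g - f = g
    · have : f = g := by omega
      subst this
      rw [if_pos h3]
      omega
    · rw [if_neg h3, if_pos (by omega)]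
      have : 2 * g - (2 * g - f) = f := by omega
      rw [this]
      omega

end Pool.Agent.Zk70.WP
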