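import Pool.Agent.Zk70.WP.Root2

/-!
# Positivity certificates for the first coefficients
-/

set_option autoImplicit false

namespace Pool.Agent.Zk70.WP

open Finset

/-- a computable sum -/
def sumTo (n : ℕ) (f : ℕ → ℤ) : ℤ := Nat.rec 0 (fun k acc => acc + f k) n

theorem sumTo_eq (n : ℕ) (f : ℕ → ℤ) : sumTo n f = ∑ i ∈ range n, f i := by
  induction n with
  | zero => rfl
  | succ n ih =>
    rw [sum_range_succ, ← ih]
    rfl

/-- `2^30 / √2^i`, rounded -/
def Sg (i : ℕ) : ℤ := if i % 2 = 0 then 2 ^ (30 - i / 2) else 759250124 / 2 ^ (i / 2)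

/-- coefficients, multiplier `4 + dn z^k`, square root certificate -/
structure Ent where
  a : List ℤ
  dn : ℤ
  k : ℕ
  q : List ℤ

def Ent.A (e : Ent) (i : ℕ) : ℤ := e.a.getD i 0
def Ent.Q (e : Ent) (i : ℕ) : ℤ := e.q.getD i 0
def Ent.E (e : Ent) (i : ℕ) : ℤ :=
  4 * (e.A i * Sg i) + if i < e.k then 0 else e.dn * (e.A (i - e.k) * Sg (i - e.k))
def Ent.rho (e : Ent) (n i : ℕ) : ℤ := sumTo (n - i) fun l => e.Q l * e.Q (l + i)

def Ent.chk (e : Ent) : Bool :=
  decide (e.a.length = 18) && decide (|e.dn| ≤ 3) &&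
    decide ((4 + |e.dn|) * (2 * sumTo 18 (fun i => |e.A i|) + 21600000) ≤
      e.E 0 - e.rho (18 + e.k) 0 -
        sumTo (17 + e.k) fun i => |e.E (i + 1) - 2 * e.rho (18 + e.k) (i + 1)|)

/-- weights -/
def wt (i : ℕ) : ℝ := if i = 0 then 1 else 2

theorem rho_pos (Q : ℕ → ℝ) (n : ℕ) (t : ℝ) :
    0 ≤ ∑ i ∈ range n, wt i * (∑ l ∈ range (n - i), Q l * Q (l + i)) * Real.cos (i * t) := by
  have key : ∑ i ∈ range n, wt i * (∑ l ∈ range (n - i), Q l * Q (l + i)) * Real.cos (i * t) =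
      (∑ k ∈ range n, Q k * Real.cos (k * t)) ^ 2 + (∑ k ∈ range n, Q k * Real.sin (k * t)) ^ 2 := by
    induction n with
    | zero => simp
    | succ n ih =>
      have e1 : ∀ i ∈ range (n + 1), wt i * (∑ l ∈ range (n + 1 - i), Q l * Q (l + i)) *
          Real.cos (i * t) = wt i * (∑ l ∈ range (n - i), Q l * Q (l + i)) * Real.cos (i * t) +
          wt i * (Q (n - i) * Q n) * Real.cos (i * t) := by
        intro i hi
        have hi' := mem_range.1 hi
        have e2 : n + 1 - i = (n - i) + 1 := by omega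
        have e3 : n - i + i = n := by omega
        rw [e2, sum_range_succ, e3]
        ring
      rw [sum_congr rfl e1, sum_add_distrib, sum_range_succ, Nat.sub_self, range_zero, sum_empty,
        mul_zero, zero_mul, add_zero, ih]
      have e4 : ∑ i ∈ range (n + 1), wt i * (Q (n - i) * Q n) * Real.cos (i * t) =
          Q n ^ 2 + 2 * Q n * ∑ k ∈ range n, Q k * Real.cos ((n - k : ℕ) * t) := by
        rw [sum_range_succ', mul_sum, ← sum_range_reflect (fun k => 2 * Q n *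
          (Q k * Real.cos ((n - k : ℕ) * t))), add_comm]
        congr 1
        · simp [wt]
          ring
        · refine sum_congr rfl fun i hi => ?_
          have hi' := mem_range.1 hi
          have e5 : n - (n - 1 - i) = i + 1 := by omega
          have e6 : n - 1 - i = n - (i + 1) := by omega
          rw [e5, e6]
          simp only [wt, Nat.add_eq_zero_iff, one_ne_zero, and_false, if_false]
          ring
      rw [e4, sum_range_succ, sum_range_succ]
      have e7 : ∑ k ∈ range n, Q k * Real.cos ((n - k : ℕ) * t) =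
          Real.cos (n * t) * (∑ k ∈ range n, Q k * Real.cos (k * t)) +
          Real.sin (n * t) * (∑ k ∈ range n, Q k * Real.sin (k * t)) := by
        rw [mul_sum, mul_sum, ← sum_add_distrib]
        refine sum_congr rfl fun k hk => ?_
        have hk' := mem_range.1 hk
        rw [Nat.cast_sub hk'.le, sub_mul, Real.cos_sub]
        ring
      rw [e7]
      have h8 := Real.sin_sq_add_cos_sq (n * t)
      linear_combination (Q n ^ 2) * (-h8)
  rw [key]
  positivity

/-- `1 / √2` -/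
noncomputable def sq : ℝ := (Real.sqrt ((2 : ℕ) : ℝ))⁻¹

theorem sq_sq : sq ^ 2 = 1 / 2 := by
  rw [sq, inv_pow, Real.sq_sqrt (by positivity)]
  norm_num

theorem sq_pos : 0 < sq := by
  rw [sq]
  positivity

theorem sq_bounds : 0.7071067811 < sq ∧ sq < 0.7071067813 := by
  have h1 := sq_sq
  have h2 := sq_pos
  constructor <;> nlinarith

theorem Sg_err (i : ℕ) (hi : i < 18) : |2 ^ 30 * sq ^ i - (Sg i : ℝ)| ≤ 2 := by
  have h1 := sq_sq
  obtain ⟨h2, h3⟩ := sq_bounds
  have h4 : sq ^ i = (1 / 2) ^ (i / 2) * sq ^ (i % 2) := by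
    conv_lhs => rw [← Nat.div_add_mod i 2]
    rw [pow_add, pow_mul, h1]
  rw [h4, abs_le]
  interval_cases i <;> norm_num [Sg] <;> constructor <;> linarith

theorem Ent.A_zero {e : Ent} (h : e.a.length = 18) {i : ℕ} (hi : 18 ≤ i) : e.A i = 0 := by
  unfold Ent.A
  rw [List.getD_eq_default _ _ (by omega)]

/-- the certificate gives a lower bound -/
theorem blk_pos (e : Ent) (h : e.chk = true) (t : ℝ) :
    (4 + |(e.dn : ℝ)|) * 21600000 ≤
      2 ^ 30 * ∑ i ∈ range 18, (e.A i : ℝ) * sq ^ i *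
        (4 * Real.cos (i * t) + e.dn * Real.cos ((i + e.k : ℕ) * t)) := by
  unfold Ent.chk at h
  rw [Bool.and_eq_true, Bool.and_eq_true, decide_eq_true_iff, decide_eq_true_iff,
    decide_eq_true_iff] at h
  obtain ⟨⟨hlen, hdn⟩, hmain⟩ := h
  set n := 18 + e.k with hn
  -- the certificate
  have hrho : ∀ i, ((e.rho n i : ℤ) : ℝ) = ∑ l ∈ range (n - i), (e.Q l : ℝ) * (e.Q (l + i) : ℝ) := by
    intro i
    rw [Ent.rho, sumTo_eq]
    push_cast
    rfl
  have hpos := rho_pos (fun l => (e.Q l : ℝ)) n t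
  have hpos' : 0 ≤ ∑ i ∈ range n, wt i * (e.rho n i : ℝ) * Real.cos (i * t) := by
    refine hpos.trans_eq (sum_congr rfl fun i _ => ?_)
    rw [hrho]
  have hE : ((e.E 0 : ℤ) : ℝ) - e.rho n 0 - ∑ i ∈ range (17 + e.k),
      |((e.E (i + 1) : ℤ) : ℝ) - 2 * e.rho n (i + 1)| ≤ ∑ i ∈ range n, (e.E i : ℝ) * Real.cos (i * t) := by
    have e1 : ∑ i ∈ range n, (e.E i : ℝ) * Real.cos (i * t) =
        ∑ i ∈ range n, wt i * (e.rho n i : ℝ) * Real.cos (i * t) +
        ∑ i ∈ range n, ((e.E i : ℝ) - wt i * e.rho n i) * Real.cos (i * t) := by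
      rw [← sum_add_distrib]
      exact sum_congr rfl fun i _ => by ring
    have e2 : ∑ i ∈ range n, ((e.E i : ℝ) - wt i * e.rho n i) * Real.cos (i * t) =
        ∑ i ∈ range (17 + e.k), ((e.E (i + 1) : ℝ) - 2 * e.rho n (i + 1)) *
          Real.cos ((i + 1 : ℕ) * t) + ((e.E 0 : ℝ) - e.rho n 0) := by
      rw [hn, show 18 + e.k = 17 + e.k + 1 by ring, sum_range_succ']
      congr 1
      · simp [wt]
    have e3 : -∑ i ∈ range (17 + e.k), |((e.E (i + 1) : ℤ) : ℝ) - 2 * e.rho n (i + 1)| ≤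
        ∑ i ∈ range (17 + e.k), ((e.E (i + 1) : ℝ) - 2 * e.rho n (i + 1)) *
          Real.cos ((i + 1 : ℕ) * t) := by
      rw [← sum_neg_distrib]
      refine sum_le_sum fun i _ => ?_
      have h1 := Real.abs_cos_le_one ((i + 1 : ℕ) * t)
      have h2 := abs_mul ((e.E (i + 1) : ℝ) - 2 * e.rho n (i + 1)) (Real.cos ((i + 1 : ℕ) * t))
      have h3 := neg_abs_le (((e.E (i + 1) : ℝ) - 2 * e.rho n (i + 1)) * Real.cos ((i + 1 : ℕ) * t))
      have h4 := abs_nonneg ((e.E (i + 1) : ℝ) - 2 * e.rho n (i + 1))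
      nlinarith
    rw [e1, e2]
    linarith
  have hmain' : (4 + |(e.dn : ℝ)|) * (2 * ∑ i ∈ range 18, |(e.A i : ℝ)| + 21600000) ≤
      ((e.E 0 : ℤ) : ℝ) - e.rho n 0 - ∑ i ∈ range (17 + e.k),
      |((e.E (i + 1) : ℤ) : ℝ) - 2 * e.rho n (i + 1)| := by
    rw [sumTo_eq, sumTo_eq] at hmain
    have h1 : (((4 + |e.dn|) * (2 * ∑ i ∈ range 18, |e.A i| + 21600000) : ℤ) : ℝ) ≤
        ((e.E 0 - e.rho n 0 - ∑ i ∈ range (17 + e.k), |e.E (i + 1) - 2 * e.rho n (i + 1)| : ℤ) : ℝ) := by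
      exact_mod_cast hmain
    push_cast at h1
    exact h1
  -- the sum with the rounded powers
  have hsum : ∑ i ∈ range n, (e.E i : ℝ) * Real.cos (i * t) = ∑ i ∈ range 18,
      (e.A i : ℝ) * Sg i * (4 * Real.cos (i * t) + e.dn * Real.cos ((i + e.k : ℕ) * t)) := by
    have e1 : ∀ i, (e.E i : ℝ) * Real.cos (i * t) = 4 * ((e.A i : ℝ) * Sg i) * Real.cos (i * t) +
        (if i < e.k then 0 else (e.dn : ℝ) * ((e.A (i - e.k) : ℝ) * Sg (i - e.k))) *
          Real.cos (i * t) := by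
      intro i
      unfold Ent.E
      split_ifs <;> push_cast <;> ring
    rw [sum_congr rfl fun i _ => e1 i, sum_add_distrib]
    have e2 : ∑ i ∈ range n, 4 * ((e.A i : ℝ) * Sg i) * Real.cos (i * t) =
        ∑ i ∈ range 18, 4 * ((e.A i : ℝ) * Sg i) * Real.cos (i * t) := by
      rw [hn, sum_range_add]
      have : ∑ x ∈ range e.k, 4 * ((e.A (18 + x) : ℝ) * Sg (18 + x)) * Real.cos ((18 + x : ℕ) * t)
          = 0 := by
        refine sum_eq_zero fun x _ => ?_
        rw [Ent.A_zero hlen (by omega)]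
        simp
      rw [this, add_zero]
    have e3 : ∑ i ∈ range n, (if i < e.k then 0 else (e.dn : ℝ) * ((e.A (i - e.k) : ℝ) *
        Sg (i - e.k))) * Real.cos (i * t) = ∑ i ∈ range 18, (e.dn : ℝ) * ((e.A i : ℝ) * Sg i) *
        Real.cos ((i + e.k : ℕ) * t) := by
      rw [hn, add_comm 18, sum_range_add]
      have : ∑ x ∈ range e.k, (if x < e.k then 0 else (e.dn : ℝ) * ((e.A (x - e.k) : ℝ) *
          Sg (x - e.k))) * Real.cos (x * t) = 0 := by
        refine sum_eq_zero fun x hx => ?_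
        rw [if_pos (mem_range.1 hx), zero_mul]
      rw [this, zero_add]
      refine sum_congr rfl fun x _ => ?_
      rw [if_neg (by omega), Nat.add_sub_cancel_left, add_comm x]
    rw [e2, e3, ← sum_add_distrib]
    refine sum_congr rfl fun x _ => ?_
    ring
  -- errors
  have herr : ∑ i ∈ range 18, (e.A i : ℝ) * Sg i * (4 * Real.cos (i * t) + e.dn *
      Real.cos ((i + e.k : ℕ) * t)) - (4 + |(e.dn : ℝ)|) * (2 * ∑ i ∈ range 18, |(e.A i : ℝ)|) ≤
      2 ^ 30 * ∑ i ∈ range 18, (e.A i : ℝ) * sq ^ i *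
        (4 * Real.cos (i * t) + e.dn * Real.cos ((i + e.k : ℕ) * t)) := by
    rw [mul_sum, mul_sum, mul_sum, ← sum_sub_distrib]
    refine sum_le_sum fun i hi => ?_
    have h1 := Sg_err i (mem_range.1 hi)
    set c : ℝ := 4 * Real.cos (i * t) + e.dn * Real.cos ((i + e.k : ℕ) * t) with hc
    have h2 : |c| ≤ 4 + |(e.dn : ℝ)| := by
      rw [hc]
      refine (abs_add_le _ _).trans ?_
      rw [abs_mul, abs_mul]
      have h3 := Real.abs_cos_le_one (i * t)
      have h4 := Real.abs_cos_le_one ((i + e.k : ℕ) * t)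
      have h5 := abs_nonneg (e.dn : ℝ)
      rw [abs_of_pos (by norm_num : (0 : ℝ) < 4)]
      nlinarith
    have h6 : |(e.A i : ℝ) * c * (2 ^ 30 * sq ^ i - Sg i)| ≤
        (4 + |(e.dn : ℝ)|) * (2 * |(e.A i : ℝ)|) := by
      rw [abs_mul, abs_mul]
      have h7 := abs_nonneg (e.A i : ℝ)
      have h8 := abs_nonneg c
      have h9 := abs_nonneg (2 ^ 30 * sq ^ i - (Sg i : ℝ))
      calc |(e.A i : ℝ)| * |c| * |2 ^ 30 * sq ^ i - (Sg i : ℝ)| ≤
          |(e.A i : ℝ)| * (4 + |(e.dn : ℝ)|) * 2 := by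
            refine mul_le_mul (mul_le_mul_of_nonneg_left h2 h7) h1 h9 (by positivity)
        _ = _ := by ring
    have h10 := neg_abs_le ((e.A i : ℝ) * c * (2 ^ 30 * sq ^ i - Sg i))
    have h11 : 2 ^ 30 * ((e.A i : ℝ) * sq ^ i * c) = (e.A i : ℝ) * Sg i * c +
        (e.A i : ℝ) * c * (2 ^ 30 * sq ^ i - Sg i) := by ring
    rw [h11]
    linarith
  rw [hsum] at hE
  have h12 : (4 + |(e.dn : ℝ)|) * (2 * ∑ i ∈ range 18, |(e.A i : ℝ)| + 21600000) =
      (4 + |(e.dn : ℝ)|) * (2 * ∑ i ∈ range 18, |(e.A i : ℝ)|) +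
      (4 + |(e.dn : ℝ)|) * 21600000 := by ring
  rw [h12] at hmain'
  linarith

end Pool.Agent.Zk70.WP
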