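import Mathlib

/-!
# Fields generated by powers of an algebraic number

If the only roots of unity in `ℚ(x)` are `±1` and the minimal polynomial of `x` is not a polynomial
in `X^l` for any prime `l`, then `ℚ(x^n) = ℚ(x)` for all `n ≥ 1`.
-/

set_option autoImplicit false

namespace Pool.Agent.Zk70.WP

open Polynomial IntermediateField

/-- the minimal polynomial over `L` of an `l`-th root not in `L` -/
theorem irr_pow_sub {L : IntermediateField ℚ ℂ} {K : IntermediateField ℚ ℂ} (hLK : L ≤ K) {z : ℂ}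
    (hzK : z ∈ K) (hzL : z ∉ L) {l : ℕ} (hl : l.Prime) (hz : z ^ l ∈ L)
    (hRU : ∀ w ∈ K, ∀ k : ℕ, 1 ≤ k → w ^ k = 1 → w = 1 ∨ w = -1) :
    Irreducible (X ^ l - C (⟨z ^ l, hz⟩ : L)) := by
  refine X_pow_sub_C_irreducible_of_prime hl ?_
  intro b hb
  have hb' : (b : ℂ) ^ l = z ^ l := by
    have := congrArg (fun t : L => (t : ℂ)) hb
    simpa using this
  have hz0 : z ≠ 0 := by
    rintro rfl
    exact hzL (zero_mem L)
  have hb0 : (b : ℂ) ≠ 0 := by
    intro h0
    rw [h0, zero_pow hl.ne_zero] at hb'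
    exact hz0 (pow_eq_zero_iff hl.ne_zero |>.1 hb'.symm)
  have h1 : (z / b) ^ l = 1 := by
    rw [div_pow, hb', div_self (pow_ne_zero _ hz0)]
  have h2 : z / b ∈ K := div_mem hzK (hLK b.2)
  rcases hRU _ h2 l hl.one_lt.le h1 with h3 | h3
  · rw [div_eq_one_iff_eq hb0] at h3
    exact hzL (h3 ▸ b.2)
  · rw [div_eq_iff hb0] at h3
    apply hzL
    rw [h3, neg_one_mul]
    exact neg_mem b.2

theorem adjoin_pow {x : ℂ} (hx : IsIntegral ℚ x) (hx0 : x ≠ 0)
    (hRU : ∀ w ∈ ℚ⟮x⟯, ∀ k : ℕ, 1 ≤ k → w ^ k = 1 → w = 1 ∨ w = -1)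
    (hc : ∀ l : ℕ, l.Prime → ∃ k, (minpoly ℚ x).coeff k ≠ 0 ∧ ¬ l ∣ k) :
    ∀ n : ℕ, 1 ≤ n → x ∈ ℚ⟮x ^ n⟯ := by
  intro n
  induction n using Nat.strong_induction_on with
  | _ n ih =>
  intro hn
  by_contra hxL
  have hn1 : n ≠ 1 := by
    rintro rfl
    apply hxL
    rw [pow_one]
    exact mem_adjoin_simple_self ℚ x
  set K : IntermediateField ℚ ℂ := ℚ⟮x⟯ with hK
  set L : IntermediateField ℚ ℂ := ℚ⟮x ^ n⟯ with hL
  have hxK : x ∈ K := mem_adjoin_simple_self ℚ x
  have hLK : L ≤ K := by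
    rw [hL, adjoin_simple_le_iff]
    exact pow_mem hxK n
  obtain ⟨l, hl, m, rfl⟩ := Nat.exists_prime_and_dvd hn1
  have hm : 1 ≤ m := by
    rcases Nat.eq_zero_or_pos m with h | h
    · rw [h, mul_zero] at hn
      omega
    · exact h
  have hml : m < l * m := by
    have := hl.two_le
    nlinarith
  have hz1 : x ∈ ℚ⟮x ^ m⟯ := ih m hml hm
  set z : ℂ := x ^ m with hz
  have hzl : z ^ l = x ^ (l * m) := by rw [hz, ← pow_mul, mul_comm]
  have hzL : z ∉ L := by
    intro h
    apply hxL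
    have : ℚ⟮z⟯ ≤ L := by
      rw [adjoin_simple_le_iff]; exact h
    exact this hz1
  have hzlL : z ^ l ∈ L := by
    rw [hzl]
    exact mem_adjoin_simple_self ℚ _
  have hzK : z ∈ K := pow_mem hxK m
  have hirr := irr_pow_sub hLK hzK hzL hl hzlL hRU
  -- the extension `L(x)/L`
  have hxiL : IsIntegral L x := hx.tower_top
  have hziL : IsIntegral L z := hxiL.pow m
  have hminz : minpoly L z = X ^ l - C (⟨z ^ l, hzlL⟩ : L) := by
    symm
    refine minpoly.eq_of_irreducible_of_monic hirr ?_ (monic_X_pow_sub_C _ hl.ne_zero)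
    simp
  have hadj : L⟮x⟯ = L⟮z⟯ := by
    apply le_antisymm
    · rw [adjoin_simple_le_iff]
      have h1 : ℚ⟮z⟯ ≤ (L⟮z⟯).restrictScalars ℚ := by
        rw [adjoin_simple_le_iff]
        exact mem_adjoin_simple_self L z
      exact h1 hz1
    · rw [adjoin_simple_le_iff]
      exact pow_mem (mem_adjoin_simple_self L x) m
  have hdeg : (minpoly L x).natDegree = l := by
    rw [← adjoin.finrank hxiL, hadj, adjoin.finrank hziL, hminz, natDegree_X_pow_sub_C]
  -- norms
  have hnorm : ∃ ν ∈ L, ν ^ m = z ^ l ∨ ν ^ m = -z ^ l := by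
    have hxM : x ∈ L⟮z⟯ := by
      rw [← hadj]; exact mem_adjoin_simple_self L x
    set xM : L⟮z⟯ := ⟨x, hxM⟩ with hxM'
    have hxz : xM ^ m = AdjoinSimple.gen L z := by
      apply Subtype.ext
      push_cast
      rw [AdjoinSimple.coe_gen]
    have h1 := Algebra.PowerBasis.norm_gen_eq_coeff_zero_minpoly (adjoin.powerBasis hziL)
    rw [adjoin.powerBasis_gen, minpoly_gen, hminz, adjoin.powerBasis_dim, hminz,
      natDegree_X_pow_sub_C, ← hxz, map_pow] at h1
    have hc0 : (X ^ l - C (⟨z ^ l, hzlL⟩ : L)).coeff 0 = -⟨z ^ l, hzlL⟩ := by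
      rw [coeff_sub, coeff_X_pow, if_neg hl.ne_zero.symm, coeff_C_zero, zero_sub]
    rw [hc0] at h1
    refine ⟨(Algebra.norm L xM : L), SetLike.coe_mem _, ?_⟩
    have h2 := congrArg (fun t : L => (t : ℂ)) h1
    push_cast at h2
    rcases neg_one_pow_eq_or ℂ l with h3 | h3
    · right
      rw [h2, h3]; ring
    · left
      rw [h2, h3]; ring
  have hxlL : x ^ l ∈ L := by
    obtain ⟨ν, hν, h⟩ := hnorm
    have hν0 : ν ≠ 0 := by
      rintro rfl
      rw [zero_pow (by omega)] at h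
      rcases h with h | h
      · exact pow_ne_zero l (pow_ne_zero m hx0) h.symm
      · rw [eq_comm, neg_eq_zero] at h
        exact pow_ne_zero l (pow_ne_zero m hx0) h
    have h1 : ((x ^ l) / ν) ^ (2 * m) = 1 := by
      rw [mul_comm, pow_mul, div_pow, ← pow_mul, ← hzl]
      rcases h with h | h
      · rw [h, div_self, one_pow]
        rw [← h]; exact pow_ne_zero _ hν0
      · rw [h, div_neg, div_self, neg_one_sq]
        intro h3
        rw [h3, neg_zero] at h
        exact pow_ne_zero _ hν0 h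
    rcases hRU _ (div_mem (pow_mem hxK l) (hLK hν)) (2 * m) (by omega) h1 with h3 | h3
    · rw [div_eq_one_iff_eq hν0] at h3
      rw [h3]; exact hν
    · rw [div_eq_iff hν0] at h3
      rw [h3, neg_one_mul]
      exact neg_mem hν
  have hm1 : m = 1 := by
    by_contra hm1
    have h1 : l < l * m := by
      have := hl.pos
      have : 2 ≤ m := by omega
      nlinarith
    have h2 := ih l h1 hl.one_lt.le
    apply hxL
    have : ℚ⟮x ^ l⟯ ≤ L := by
      rw [adjoin_simple_le_iff]; exact hxlL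
    exact this h2
  subst hm1
  -- degree count
  rw [mul_one] at hL
  have hfr : Module.finrank ℚ L * l = Module.finrank ℚ K := by
    have h1 := Module.finrank_mul_finrank ℚ L L⟮x⟯
    rw [adjoin.finrank hxiL, hdeg] at h1
    rw [h1]
    have h2 : (L⟮x⟯).restrictScalars ℚ = K := by
      apply le_antisymm
      · intro y hy
        have h3 : L⟮x⟯ ≤ extendScalars hLK := by
          rw [adjoin_simple_le_iff]
          exact hxK
        exact h3 hy
      · rw [hK, adjoin_simple_le_iff]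
        exact mem_adjoin_simple_self L x
    rw [← h2]
    rfl
  have hxli : IsIntegral ℚ (x ^ l) := hx.pow l
  have hexp : minpoly ℚ x = expand ℚ l (minpoly ℚ (x ^ l)) := by
    symm
    refine Polynomial.eq_of_monic_of_dvd_of_natDegree_le (minpoly.monic hx)
      ((minpoly.monic hxli).expand hl.pos) (minpoly.dvd ℚ x ?_) ?_
    · rw [expand_aeval, minpoly.aeval]
    · rw [natDegree_expand, ← adjoin.finrank hx, ← adjoin.finrank hxli, ← hL, ← hK, hfr]
  obtain ⟨k, hk1, hk2⟩ := hc l hl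
  rw [hexp, coeff_expand hl.pos, if_neg hk2] at hk1
  exact hk1 rfl

end Pool.Agent.Zk70.WP
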