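import Pool.Agent.Zk70.WP.Loc
import Pool.Agent.Zk70.WP.Kum
import Pool.Agent.R80.WF.F0I

/-!
# A criterion for absolutely simple Weil 2-polynomials

`PP 2 g a` is `x^g h(x + 2/x)` with `h = HH g a`. If `h` is Eisenstein at 3 with `h(0) = 6` modulo 9
and the roots of `P` are not real and have absolute value `√2`, then `P` is irreducible and
`ℚ(x^n) = ℚ(x)`.
-/

set_option autoImplicit false

namespace Pool.Agent.Zk70.WP

open Polynomial IntermediateField Pool.Agent.R80.WF

/-- the polynomial of `x + 2 / x` -/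
noncomputable def HH (g : ℕ) (a : ℕ → ℤ) : ℤ[X] :=
  ∑ i ∈ Finset.range g, C (a i) * dickson 1 (2 : ℤ) (g - i) + C (a g)

theorem D_eval' {K : Type} [Field K] (x y : K) (hxy : x * y = 2) (n : ℕ) :
    aeval (x + y) (dickson 1 (2 : ℤ) n) = x ^ n + y ^ n := by
  induction n using Nat.twoStepInduction with
  | zero =>
    rw [dickson_zero]
    have : ((3 : ℤ[X]) - ((1 : ℕ) : ℤ[X])) = C 2 := by
      norm_num
    rw [this, aeval_C]
    norm_num
  | one => rw [dickson_one]; simp
  | more n h1 h2 =>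
    rw [dickson_add_two, map_sub, map_mul, map_mul, aeval_X, aeval_C, h1, h2]
    simp only [algebraMap_int_eq, eq_intCast]
    push_cast
    rw [← hxy]
    ring

theorem PP_HH {K : Type} [Field K] (g : ℕ) (a : ℕ → ℤ) (x y : K) (hxy : x * y = 2) :
    aeval x (PP 2 g a) = x ^ g * aeval (x + y) (HH g a) := by
  unfold PP HH
  rw [map_add, map_add, map_sum, map_sum, mul_add, Finset.mul_sum]
  congr 1
  · refine Finset.sum_congr rfl fun i hi => ?_
    have hi' := Finset.mem_range.1 hi
    simp only [map_mul, map_add, map_pow, aeval_X, D_eval' x y hxy, eq_intCast, map_intCast,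
      Nat.cast_ofNat, map_ofNat]
    obtain ⟨m, rfl⟩ : ∃ m, g = i + m := ⟨g - i, by omega⟩
    have e1 : 2 * (i + m) - i = i + m + m := by omega
    have e2 : i + m - i = m := by omega
    rw [e1, e2, ← hxy]
    ring
  · rw [map_mul, map_pow, aeval_X, aeval_C, aeval_C]
    ring

theorem HH_deg {g : ℕ} (hg : 1 ≤ g) {a : ℕ → ℤ} (ha0 : a 0 = 1) :
    (HH g a).Monic ∧ (HH g a).natDegree = g := by
  obtain ⟨m, rfl⟩ : ∃ m, g = m + 1 := ⟨g - 1, by omega⟩
  have hD : ∀ n, (dickson 1 (2 : ℤ) (n + 1)).Monic ∧ (dickson 1 (2 : ℤ) (n + 1)).natDegree = n + 1 :=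
    fun n => ⟨(F0Iaux.D_monic 2 n).1, (F0Iaux.D_monic 2 n).2.1⟩
  have e : HH (m + 1) a = dickson 1 (2 : ℤ) (m + 1) +
      (∑ i ∈ Finset.range m, C (a (i + 1)) * dickson 1 (2 : ℤ) (m - i) + C (a (m + 1))) := by
    unfold HH
    rw [Finset.sum_range_succ', ha0, C_1, one_mul, Nat.sub_zero]
    simp only [Nat.add_sub_add_right]
    ring
  have hlow : (∑ i ∈ Finset.range m, C (a (i + 1)) * dickson 1 (2 : ℤ) (m - i) +
      C (a (m + 1))).natDegree ≤ m := by
    refine (natDegree_add_le _ _).trans (max_le ?_ (by rw [natDegree_C]; omega))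
    refine natDegree_sum_le_of_forall_le _ _ fun i hi => ?_
    refine (natDegree_C_mul_le _ _).trans ?_
    have hi' := Finset.mem_range.1 hi
    obtain ⟨k, hk⟩ : ∃ k, m - i = k + 1 := ⟨m - i - 1, by omega⟩
    rw [hk, (hD k).2]
    omega
  obtain ⟨h1, h2⟩ := hD m
  rw [e]
  refine ⟨h1.add_of_left (degree_lt_degree (by rw [h2]; omega)), ?_⟩
  rw [natDegree_add_eq_left_of_natDegree_lt (by rw [h2]; omega), h2]

/-- the coefficients of `X ^ g` -/
def bb (g i : ℕ) : ℤ := if i % 2 = 0 then (g.choose (i / 2) : ℤ) * 2 ^ (i / 2) else 0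

theorem even_sum {K : Type} [Field K] (f : ℕ → K) (m : ℕ) :
    ∑ i ∈ Finset.range (2 * m), (if i % 2 = 0 then f (i / 2) else 0) =
      ∑ j ∈ Finset.range m, f j := by
  induction m with
  | zero => simp
  | succ m ih =>
    rw [show 2 * (m + 1) = 2 * m + 1 + 1 by ring, Finset.sum_range_succ, Finset.sum_range_succ, ih,
      Finset.sum_range_succ, if_pos (by omega), if_neg (by omega), add_zero]
    congr 2
    omega

theorem sum_bb {K : Type} [Field K] (g : ℕ) (x y : K) (hxy : x * y = 2) :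
    ∑ i ∈ Finset.range g, (bb g i : K) * (x ^ (g - i) + y ^ (g - i)) + (bb g g : K) =
      (x + y) ^ g := by
  obtain ⟨f, hf⟩ : ∃ f : ℕ → K, ∀ j, f j = (g.choose j : K) * 2 ^ j *
    (x ^ (g - 2 * j) + y ^ (g - 2 * j)) := ⟨_, fun _ => rfl⟩
  obtain ⟨F, hF⟩ : ∃ F : ℕ → K, ∀ j, F j = x ^ j * y ^ (g - j) * (g.choose j : K) :=
    ⟨_, fun _ => rfl⟩
  have hb : ∀ i, ((bb g i : ℤ) : K) * (x ^ (g - i) + y ^ (g - i)) =
      if i % 2 = 0 then f (i / 2) else 0 := by
    intro i
    unfold bb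
    rw [hf]
    split_ifs with h
    · have : 2 * (i / 2) = i := by omega
      simp only [this]
      push_cast
      ring
    · simp
  have hfF : ∀ j, 2 * j ≤ g → f j = F j + F (g - j) := by
    intro j hj
    rw [hf, hF, hF]
    obtain ⟨k, rfl⟩ : ∃ k, g = 2 * j + k := ⟨g - 2 * j, by omega⟩
    have e1 : 2 * j + k - 2 * j = k := by omega
    have e2 : 2 * j + k - j = j + k := by omega
    have e3 : 2 * j + k - (j + k) = j := by omega
    have e4 : (2 * j + k).choose (j + k) = (2 * j + k).choose j := by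
      rw [← Nat.choose_symm (by omega : j + k ≤ 2 * j + k), e3]
    rw [e1, e2, e3, e4, ← hxy]
    ring
  have hR : (x + y) ^ g = ∑ j ∈ Finset.range (g + 1), F j := by
    rw [add_pow]
    exact Finset.sum_congr rfl fun j _ => (hF j).symm
  rw [hR, Finset.sum_congr rfl fun i _ => hb i]
  rcases Nat.even_or_odd' g with ⟨m, hm | hm⟩
  · have hL : ∑ i ∈ Finset.range g, (if i % 2 = 0 then f (i / 2) else 0) =
        ∑ j ∈ Finset.range m, f j := by
      rw [hm]; exact even_sum f m
    have hR2 : ∑ j ∈ Finset.range (g + 1), F j = ∑ j ∈ Finset.range m, F j + F m +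
        ∑ j ∈ Finset.range m, F (g - j) := by
      have e1 : g + 1 = m + 1 + m := by omega
      rw [e1, Finset.sum_range_add, Finset.sum_range_succ _ m]
      congr 1
      rw [← Finset.sum_range_reflect (fun j => F (m + 1 + j))]
      refine Finset.sum_congr rfl fun j hj => ?_
      have hj' := Finset.mem_range.1 hj
      congr 1
      omega
    have hS : ∑ j ∈ Finset.range m, f j = ∑ j ∈ Finset.range m, F j +
        ∑ j ∈ Finset.range m, F (g - j) := by
      rw [← Finset.sum_add_distrib]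
      refine Finset.sum_congr rfl fun j hj => ?_
      have hj' := Finset.mem_range.1 hj
      exact hfF j (by omega)
    have e4 : ((bb g g : ℤ) : K) = F m := by
      rw [hF]
      unfold bb
      have h1 : g % 2 = 0 := by omega
      have h2 : g / 2 = m := by omega
      have h3 : g - m = m := by omega
      rw [if_pos h1, h2, h3]
      push_cast
      rw [← hxy]
      ring
    rw [hL, hR2, hS, e4]
    ring
  · have h0 : ((bb g g : ℤ) : K) = 0 := by
      unfold bb
      rw [if_neg (by omega), Int.cast_zero]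
    have hL : ∑ i ∈ Finset.range g, (if i % 2 = 0 then f (i / 2) else 0) =
        ∑ j ∈ Finset.range (m + 1), f j := by
      rw [← even_sum f (m + 1), show 2 * (m + 1) = g + 1 by omega, Finset.sum_range_succ _ g,
        if_neg (by omega : ¬ g % 2 = 0), add_zero]
    have hR2 : ∑ j ∈ Finset.range (g + 1), F j = ∑ j ∈ Finset.range (m + 1), F j +
        ∑ j ∈ Finset.range (m + 1), F (g - j) := by
      have e1 : g + 1 = m + 1 + (m + 1) := by omega
      rw [e1, Finset.sum_range_add]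
      congr 1
      rw [← Finset.sum_range_reflect (fun j => F (m + 1 + j))]
      refine Finset.sum_congr rfl fun j hj => ?_
      have hj' := Finset.mem_range.1 hj
      congr 1
      omega
    have hS : ∑ j ∈ Finset.range (m + 1), f j = ∑ j ∈ Finset.range (m + 1), F j +
        ∑ j ∈ Finset.range (m + 1), F (g - j) := by
      rw [← Finset.sum_add_distrib]
      refine Finset.sum_congr rfl fun j hj => ?_
      have hj' := Finset.mem_range.1 hj
      exact hfF j (by omega)
    rw [hL, h0, add_zero, hR2, hS]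

theorem HH_bb {g : ℕ} : HH g (bb g) = X ^ g := by
  have hinj : Function.Injective (Polynomial.map (Int.castRingHom ℂ)) :=
    map_injective _ (RingHom.injective_int _)
  apply hinj
  apply Polynomial.funext
  intro s
  obtain ⟨x, hx⟩ : ∃ x : ℂ, x ^ 2 - s * x + 2 = 0 := by
    obtain ⟨x, hx⟩ := IsAlgClosed.exists_root (X ^ 2 - C s * X + C 2 : ℂ[X]) (by
      have : (X ^ 2 - C s * X + C 2 : ℂ[X]).degree = 2 := by compute_degree!
      rw [this]; norm_num)
    refine ⟨x, ?_⟩
    simpa [IsRoot] using hx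
  have hx0 : x ≠ 0 := by
    rintro rfl
    norm_num at hx
  have hxy : x * (2 / x) = 2 := mul_div_cancel₀ _ hx0
  have hs : s = x + 2 / x := by
    field_simp
    linear_combination -hx
  have h1 : ∀ Q : ℤ[X], (Q.map (Int.castRingHom ℂ)).eval s = aeval s Q := by
    intro Q
    rw [eval_map, aeval_def]
    rfl
  rw [h1, h1, map_pow, aeval_X, hs, ← sum_bb g x (2 / x) hxy]
  unfold HH
  rw [map_add, map_sum]
  congr 1
  · refine Finset.sum_congr rfl fun i _ => ?_
    rw [map_mul, D_eval' x (2 / x) hxy, aeval_C]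
    rfl
  · rw [aeval_C]
    rfl

theorem HH_add (g : ℕ) (a c : ℕ → ℤ) (n : ℤ) :
    HH g (fun i => a i + n * c i) = HH g a + C n * HH g c := by
  unfold HH
  rw [mul_add, Finset.mul_sum, add_add_add_comm, ← Finset.sum_add_distrib]
  congr 1
  · refine Finset.sum_congr rfl fun i _ => ?_
    rw [C_add, C_mul]
    ring
  · rw [C_add, C_mul]

/-- the decomposition modulo 3 -/
theorem HH_dec {g : ℕ} {a c : ℕ → ℤ} (hac : ∀ i ≤ g, a i = bb g i + 3 * c i) :
    HH g a = X ^ g + C 3 * HH g c := by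
  rw [← HH_bb, ← HH_add]
  unfold HH
  congr 1
  · refine Finset.sum_congr rfl fun i hi => ?_
    rw [hac i (Finset.mem_range.1 hi).le]
  · rw [hac g le_rfl]

theorem HH_irr {g : ℕ} (hg : 1 ≤ g) {a c : ℕ → ℤ} (ha0 : a 0 = 1)
    (hac : ∀ i ≤ g, a i = bb g i + 3 * c i) (hc0 : (HH g c).coeff 0 % 3 = 2) :
    Irreducible (HH g a) := by
  obtain ⟨hm, hd⟩ := HH_deg hg ha0
  have h3 : Prime (3 : ℤ) := Int.prime_three
  have hE : (HH g a).IsEisensteinAt (Ideal.span {(3 : ℤ)}) := by
    refine ⟨?_, ?_, ?_⟩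
    · rw [hm.leadingCoeff, Ideal.mem_span_singleton]
      intro h
      exact h3.not_isUnit (isUnit_of_dvd_one h)
    · intro n hn
      rw [hd] at hn
      rw [Ideal.mem_span_singleton, HH_dec hac, coeff_add, coeff_X_pow, if_neg hn.ne, zero_add,
        coeff_C_mul]
      exact dvd_mul_right _ _
    · rw [Ideal.span_singleton_pow, Ideal.mem_span_singleton, HH_dec hac, coeff_add, coeff_X_pow,
        if_neg (by omega), zero_add, coeff_C_mul]
      intro h
      omega
  have hprime : (Ideal.span {(3 : ℤ)}).IsPrime := by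
    rw [Ideal.span_singleton_prime h3.ne_zero]
    exact h3
  exact hE.irreducible hprime hm.isPrimitive (by omega)

section loc

variable {K : Type} [NormedField K]

theorem int_poly_norm (hna : ∀ x y : K, ‖x + y‖ ≤ max ‖x‖ ‖y‖) {t : K} (ht : ‖t‖ ≤ 1) (Q : ℤ[X]) :
    ‖aeval t Q‖ ≤ 1 := by
  induction Q using Polynomial.induction_on' with
  | add p q hp hq =>
    rw [map_add]
    exact (hna _ _).trans (max_le hp hq)
  | monomial n a =>
    rw [aeval_monomial, norm_mul, norm_pow]
    have h1 : ‖algebraMap ℤ K a‖ ≤ 1 := f0n_int hna a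
    exact mul_le_one₀ h1 (by positivity) (pow_le_one₀ (norm_nonneg _) ht)

/-- the norm of a root of `HH` -/
theorem root_norm (hna : ∀ x y : K, ‖x + y‖ ≤ max ‖x‖ ‖y‖) (h3 : ‖((3 : ℕ) : K)‖ < 1)
    (h30 : ((3 : ℕ) : K) ≠ 0) {Q : ℤ[X]} {g : ℕ} (hQ : Q.natDegree < g) (hQ0 : Q.coeff 0 % 3 = 2)
    {t : K} (ht : aeval t (X ^ g + C 3 * Q) = 0) :
    ‖t‖ < 1 ∧ ‖t‖ ^ g = ‖((3 : ℕ) : K)‖ ∧ ‖t ^ g - 3‖ < ‖((3 : ℕ) : K)‖ := by
  have h30' : 0 < ‖((3 : ℕ) : K)‖ := norm_pos_iff.2 h30
  have htg : t ^ g = -(((3 : ℕ) : K) * aeval t Q) := by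
    have h1 := ht
    simp only [map_add, map_mul, map_pow, aeval_X, eq_intCast, map_intCast] at h1
    push_cast at h1 ⊢
    linear_combination h1
  -- integrality
  have ht1 : ‖t‖ ≤ 1 := by
    by_contra hcon
    push Not at hcon
    have hb : ∀ i < g, ‖((Q.coeff i : ℤ) : K) * t ^ i‖ ≤ ‖t‖ ^ (g - 1) := by
      intro i hi
      rw [norm_mul, norm_pow]
      calc ‖((Q.coeff i : ℤ) : K)‖ * ‖t‖ ^ i ≤ 1 * ‖t‖ ^ (g - 1) :=
            mul_le_mul (f0n_int hna _) (pow_le_pow_right₀ hcon.le (by omega)) (by positivity)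
              zero_le_one
        _ = _ := one_mul _
    have hQt : ‖aeval t Q‖ ≤ ‖t‖ ^ (g - 1) := by
      rw [aeval_eq_sum_range' hQ]
      have hne : (Finset.range g).Nonempty := ⟨0, Finset.mem_range.2 (by omega)⟩
      refine (IsNonarchimedean.apply_sum_le_sup (f := fun x : K => ‖x‖) hna hne).trans ?_
      rw [Finset.sup'_le_iff]
      intro i hi
      rw [zsmul_eq_mul]
      exact hb i (Finset.mem_range.1 hi)
    have h2 : ‖t‖ ^ g ≤ ‖((3 : ℕ) : K)‖ * ‖t‖ ^ (g - 1) := by
      rw [← norm_pow, htg, norm_neg, norm_mul]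
      exact mul_le_mul_of_nonneg_left hQt h30'.le
    have h4 : 0 < ‖t‖ ^ (g - 1) := pow_pos (by linarith) _
    have h5 : ‖t‖ ^ g = ‖t‖ * ‖t‖ ^ (g - 1) := by
      rw [← pow_succ']
      congr 1
      omega
    rw [h5] at h2
    have h6 := le_of_mul_le_mul_right h2 h4
    linarith
  have hQt1 : ‖aeval t Q‖ ≤ 1 := int_poly_norm hna ht1 Q
  have ht2 : ‖t‖ < 1 := by
    by_contra hcon
    push Not at hcon
    have h1 : ‖t‖ ^ g = 1 := by
      rw [le_antisymm ht1 hcon, one_pow]
    rw [← norm_pow, htg, norm_neg, norm_mul] at h1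
    nlinarith [norm_nonneg (aeval t Q)]
  -- the residue of `Q(t)`
  have hres : ‖aeval t Q + 1‖ < 1 := by
    have e : Q = X * Q.divX + C (Q.coeff 0) := (X_mul_divX_add Q).symm
    have e2 : aeval t Q + 1 = t * aeval t Q.divX + (((Q.coeff 0 + 1 : ℤ)) : K) := by
      nth_rewrite 1 [e]
      simp only [map_add, map_mul, aeval_X, eq_intCast, map_intCast]
      push_cast
      ring
    rw [e2]
    refine (hna _ _).trans_lt (max_lt ?_ ?_)
    · rw [norm_mul]
      have := int_poly_norm hna ht1 Q.divX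
      have := norm_nonneg t
      nlinarith
    · obtain ⟨k, hk⟩ : ∃ k : ℤ, Q.coeff 0 + 1 = 3 * k := ⟨(Q.coeff 0 + 1) / 3, by omega⟩
      rw [hk, Int.cast_mul, norm_mul]
      have h1 := f0n_int hna k
      have h2 : ‖((3 : ℤ) : K)‖ = ‖((3 : ℕ) : K)‖ := by norm_num
      rw [h2]
      have := norm_nonneg (k : K)
      nlinarith
  refine ⟨ht2, ?_, ?_⟩
  · rw [← norm_pow, htg, norm_neg, norm_mul]
    have h1 : ‖aeval t Q‖ = 1 := by
      have e : aeval t Q = -1 + (aeval t Q + 1) := by ring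
      rw [e, f0n_add_eq hna, norm_neg, norm_one]
      rw [norm_neg, norm_one]
      exact hres
    rw [h1, mul_one]
  · have e : t ^ g - 3 = -(((3 : ℕ) : K) * (aeval t Q + 1)) := by
      rw [htg]
      push_cast
      ring
    rw [e, norm_neg, norm_mul]
    exact mul_lt_of_lt_one_right h30' hres

end loc

end Pool.Agent.Zk70.WP
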