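import Pool.Agent.Zk70.WP.Crit

/-!
# The criterion
-/

set_option autoImplicit false

namespace Pool.Agent.Zk70.WP

open Polynomial IntermediateField Pool.Agent.R80.WF

theorem HH_low {g : ℕ} (hg : 1 ≤ g) {c : ℕ → ℤ} (hc0 : c 0 = 0) : (HH g c).natDegree < g := by
  obtain ⟨m, rfl⟩ : ∃ m, g = m + 1 := ⟨g - 1, by omega⟩
  have hD : ∀ n, (dickson 1 (2 : ℤ) (n + 1)).natDegree = n + 1 :=
    fun n => (F0Iaux.D_monic 2 n).2.1
  unfold HH
  suffices h : (∑ i ∈ Finset.range (m + 1), C (c i) * dickson 1 (2 : ℤ) (m + 1 - i) +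
      C (c (m + 1))).natDegree ≤ m by omega
  refine (natDegree_add_le _ _).trans (max_le ?_ (by rw [natDegree_C]; omega))
  refine natDegree_sum_le_of_forall_le _ _ fun i hi => ?_
  have hi' := Finset.mem_range.1 hi
  rcases Nat.eq_zero_or_pos i with h | h
  · rw [h, hc0, C_0, zero_mul, natDegree_zero]
    omega
  · refine (natDegree_C_mul_le _ _).trans ?_
    obtain ⟨k, hk⟩ : ∃ k, m + 1 - i = k + 1 := ⟨m - i, by omega⟩
    rw [hk, hD k]
    omega

/-- irreducibility -/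
theorem PP_irr {g : ℕ} (hg : 1 ≤ g) {a : ℕ → ℤ} (ha0 : a 0 = 1) (hirr : Irreducible (HH g a))
    (hroot : ∀ x : ℂ, aeval x (PP 2 g a) = 0 → ‖x‖ = Real.sqrt 2 ∧ x.im ≠ 0) :
    Irreducible ((PP 2 g a).map (Int.castRingHom ℚ)) := by
  have hPm : (PP 2 g a).Monic := monic_PP (by omega) ha0
  have hPd : (PP 2 g a).natDegree = 2 * g := natDegree_PP (by omega) ha0
  -- a root
  obtain ⟨x, hx⟩ : ∃ x : ℂ, aeval x (PP 2 g a) = 0 := by
    obtain ⟨x, hx⟩ := IsAlgClosed.exists_aeval_eq_zero_of_injective ℂ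
      (RingHom.injective_int (algebraMap ℤ ℂ)) (PP 2 g a) (by
        rw [degree_eq_natDegree hPm.ne_zero, hPd]
        exact_mod_cast (by omega : 2 * g ≠ 0))
    exact ⟨x, hx⟩
  obtain ⟨hnorm, him⟩ := hroot x hx
  have hx0 : x ≠ 0 := by
    rintro rfl
    simp at him
  obtain ⟨y, hy⟩ : ∃ y : ℂ, y = (starRingEnd ℂ) x := ⟨_, rfl⟩
  have hxy : x * y = 2 := by
    rw [hy, Complex.mul_conj, Complex.normSq_eq_norm_sq, hnorm, Real.sq_sqrt (by norm_num)]
    simp
  -- `T = x + y` is a root of `H`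
  have hT : aeval (x + y) (HH g a) = 0 := by
    rw [PP_HH g a x y hxy] at hx
    exact (mul_eq_zero.1 hx).resolve_left (pow_ne_zero _ hx0)
  obtain ⟨hHm, hHd⟩ := HH_deg hg ha0
  have hHirr : Irreducible ((HH g a).map (Int.castRingHom ℚ)) :=
    (Polynomial.IsPrimitive.Int.irreducible_iff_irreducible_map_cast hHm.isPrimitive).1 hirr
  have hHm' : ((HH g a).map (Int.castRingHom ℚ)).Monic := hHm.map _
  have hT' : aeval (x + y) ((HH g a).map (Int.castRingHom ℚ)) = 0 := by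
    rw [← hT]
    exact aeval_map_algebraMap ℚ (x + y) (HH g a)
  have hminT : (HH g a).map (Int.castRingHom ℚ) = minpoly ℚ (x + y) :=
    minpoly.eq_of_irreducible_of_monic hHirr hT' hHm'
  have hintT : IsIntegral ℚ (x + y) := ⟨_, hHm', by simpa [aeval_def] using hT'⟩
  have hfT : Module.finrank ℚ ℚ⟮x + y⟯ = g := by
    rw [IntermediateField.adjoin.finrank hintT, ← hminT, hHm.natDegree_map, hHd]
  -- `x` is integral
  have hPm' : ((PP 2 g a).map (Int.castRingHom ℚ)).Monic := hPm.map _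
  have hx' : aeval x ((PP 2 g a).map (Int.castRingHom ℚ)) = 0 := by
    rw [← hx]
    exact aeval_map_algebraMap ℚ x (PP 2 g a)
  have hintx : IsIntegral ℚ x := ⟨_, hPm', by simpa [aeval_def] using hx'⟩
  have hxmem : x ∈ ℚ⟮x⟯ := IntermediateField.mem_adjoin_simple_self ℚ x
  have hyx : y = ((2 : ℕ) : ℂ) / x := by
    rw [eq_div_iff hx0, mul_comm, hxy]
    norm_num
  have hle : ℚ⟮x + y⟯ ≤ ℚ⟮x⟯ := by
    rw [IntermediateField.adjoin_simple_le_iff]
    refine add_mem hxmem ?_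
    rw [hyx]
    exact div_mem (IntermediateField.natCast_mem _ 2) hxmem
  have hfd : FiniteDimensional ℚ ℚ⟮x⟯ := IntermediateField.adjoin.finiteDimensional hintx
  have hfdT : FiniteDimensional ℚ ℚ⟮x + y⟯ := IntermediateField.adjoin.finiteDimensional hintT
  have hreal : ℚ⟮x + y⟯ ≤ F0Iaux.RR := by
    rw [IntermediateField.adjoin_simple_le_iff]
    exact ⟨2 * x.re, by
      rw [hy, Complex.add_conj]
      simp⟩
  have hxT : x ∉ ℚ⟮x + y⟯ := fun hmem => him (F0Iaux.mem_RR (hreal hmem))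
  have hdvd : Module.finrank ℚ ℚ⟮x + y⟯ ∣ Module.finrank ℚ ℚ⟮x⟯ :=
    IntermediateField.finrank_dvd_of_le_right hle
  have hne : Module.finrank ℚ ℚ⟮x + y⟯ ≠ Module.finrank ℚ ℚ⟮x⟯ := by
    intro he
    have := IntermediateField.eq_of_le_of_finrank_eq hle he
    rw [this] at hxT
    exact hxT hxmem
  have hpos : 0 < Module.finrank ℚ ℚ⟮x⟯ := Module.finrank_pos
  have h2g : 2 * g ≤ (minpoly ℚ x).natDegree := by
    rw [← IntermediateField.adjoin.finrank hintx]
    rw [hfT] at hdvd hne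
    obtain ⟨c, hc⟩ := hdvd
    rw [hc] at hne hpos ⊢
    rcases c with _ | _ | c
    · omega
    · omega
    · nlinarith
  have hdvd2 : minpoly ℚ x ∣ (PP 2 g a).map (Int.castRingHom ℚ) := minpoly.dvd ℚ x hx'
  have heq : (PP 2 g a).map (Int.castRingHom ℚ) = minpoly ℚ x :=
    Polynomial.eq_of_monic_of_dvd_of_natDegree_le (minpoly.monic hintx) hPm' hdvd2 (by
      rw [hPm.natDegree_map, hPd]
      exact h2g)
  rw [heq]
  exact minpoly.irreducible hintx

/-- the roots of unity in the field generated by a root, in a nonarchimedean field -/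
theorem ru_loc {K : Type} [NormedField K] [CharZero K]
    (hna : ∀ x y : K, ‖x + y‖ ≤ max ‖x‖ ‖y‖) (h3 : ‖((3 : ℕ) : K)‖ < 1) {g : ℕ} (hg : 1 ≤ g)
    {a c : ℕ → ℤ} (ha0 : a 0 = 1) (hac : ∀ i ≤ g, a i = bb g i + 3 * c i)
    (hc0 : (HH g c).coeff 0 % 3 = 2) {x : K} (hx : aeval x (PP 2 g a) = 0) {F : ℚ[X]} {k : ℕ}
    (hk : 1 ≤ k) (hF : (aeval x F) ^ k = 1) : aeval x F = 1 ∨ aeval x F = -1 := by
  have h30 : ((3 : ℕ) : K) ≠ 0 := by norm_num
  have hx0 : x ≠ 0 := by
    rintro rfl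
    rw [aeval_def, eval₂_at_zero, coeff_PP, if_pos (by omega), ha0, mul_one, Nat.sub_zero,
      map_pow] at hx
    have h2 := pow_eq_zero_iff (by omega : g ≠ 0) |>.1 hx
    norm_num at h2
  have hxy : x * (2 / x) = 2 := mul_div_cancel₀ _ hx0
  set t : K := x + 2 / x with ht
  have hc00 : c 0 = 0 := by
    have := hac 0 (by omega)
    rw [ha0] at this
    have hb : bb g 0 = 1 := by simp [bb]
    rw [hb] at this
    omega
  have hT : aeval t (HH g a) = 0 := by
    rw [PP_HH g a x (2 / x) hxy] at hx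
    exact (mul_eq_zero.1 hx).resolve_left (pow_ne_zero _ hx0)
  have hT2 := hT
  rw [HH_dec hac] at hT2
  obtain ⟨ht1, htg, htg2⟩ := root_norm hna h3 h30 (HH_low hg hc00) hc0 hT2
  have hxt : x ^ 2 - t * x + 2 = 0 := by
    rw [ht]
    field_simp
    ring
  have h2 : ‖(2 : K)‖ = 1 := by
    have := int_norm hna h3 (n := 2) (by norm_num)
    push_cast at this
    exact this
  have hx1 : ‖x‖ = 1 := by
    have e : x ^ 2 = t * x + -2 := by linear_combination hxt
    rcases lt_trichotomy ‖x‖ 1 with h | h | h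
    · exfalso
      have h4 : ‖x ^ 2‖ = 1 := by
        rw [e, add_comm, f0n_add_eq hna, norm_neg, h2]
        rw [norm_neg, h2, norm_mul]
        have := norm_nonneg t
        nlinarith [norm_nonneg x]
      rw [norm_pow] at h4
      nlinarith [norm_nonneg x]
    · exact h
    · exfalso
      have h4 : ‖x ^ 2‖ ≤ ‖x‖ := by
        rw [e]
        refine (hna _ _).trans (max_le ?_ ?_)
        · rw [norm_mul]
          have := norm_nonneg t
          nlinarith
        · rw [norm_neg, h2]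
          exact h.le
      rw [norm_pow] at h4
      nlinarith
  have hcl := approx hna h3 ht1 hxt hx1
  have hcl2 := closure_aeval ℚ⟮t⟯ hcl F
  obtain ⟨hm, hd⟩ := HH_deg hg ha0
  exact ru_cl hna h3 hg hm hd hT htg htg2 hcl2 hk hF

/-- transfer of the roots of unity to the complex numbers -/
theorem ru_complex {g : ℕ} (hg : 1 ≤ g) {a c : ℕ → ℤ} (ha0 : a 0 = 1)
    (hac : ∀ i ≤ g, a i = bb g i + 3 * c i) (hc0 : (HH g c).coeff 0 % 3 = 2) {x : ℂ}
    (hx : aeval x (PP 2 g a) = 0) :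
    ∀ w ∈ ℚ⟮x⟯, ∀ k : ℕ, 1 ≤ k → w ^ k = 1 → w = 1 ∨ w = -1 := by
  intro w hw k hk hwk
  have : Fact (Nat.Prime 3) := ⟨Nat.prime_three⟩
  have hq : ‖((3 : ℕ) : PadicAlgCl 3)‖ < 1 := by
    have h1 := PadicAlgCl.valuation_p 3
    have h2 := congrArg (fun t : NNReal => (t : ℝ)) h1
    beta_reduce at h2
    rw [PadicAlgCl.valuation_coe] at h2
    rw [h2]
    push_cast
    norm_num
  have hm : (PP 2 g a).Monic := monic_PP (by omega) ha0
  have hxz : IsIntegral ℤ x := ⟨_, hm, hx⟩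
  have hxi : IsIntegral ℚ x := hxz.tower_top
  set L := algebraicClosure ℚ ℂ with hL
  have hLalg : Algebra.IsAlgebraic ℚ L := algebraicClosure.isAlgebraic ℚ ℂ
  have hxL : x ∈ L := mem_algebraicClosure_iff'.2 hxi
  have φ : L →ₐ[ℚ] PadicAlgCl 3 := IsAlgClosed.lift
  have hw' : w ∈ (ℚ⟮x⟯).toSubalgebra := hw
  rw [adjoin_simple_toSubalgebra_of_isAlgebraic hxi.isAlgebraic,
    Algebra.adjoin_singleton_eq_range_aeval] at hw'
  obtain ⟨F, hF⟩ := hw'
  have hF' : aeval x F = w := hF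
  set xL : L := ⟨x, hxL⟩ with hxL'
  have h1 : aeval (φ xL) (PP 2 g a) = 0 := by
    have h1 : aeval xL (PP 2 g a) = 0 := by
      apply (algebraMap L ℂ).injective
      rw [map_zero, ← aeval_algebraMap_apply]
      exact hx
    rw [aeval_def] at h1 ⊢
    have h2 := hom_eval₂ (PP 2 g a) (algebraMap ℤ L) (φ : L →+* PadicAlgCl 3) xL
    have e : (φ : L →+* PadicAlgCl 3).comp (algebraMap ℤ L) = algebraMap ℤ (PadicAlgCl 3) :=
      RingHom.ext_int _ _
    rw [e, h1, map_zero] at h2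
    exact h2.symm
  have hwL : (aeval xL F : L) ^ k = 1 := by
    apply (algebraMap L ℂ).injective
    rw [map_pow, ← aeval_algebraMap_apply, map_one]
    show (aeval x F) ^ k = 1
    rw [hF', hwk]
  have h2 : (aeval (φ xL) F) ^ k = 1 := by
    rw [aeval_algHom_apply, ← map_pow, hwL, map_one]
  have h3 := ru_loc (PadicAlgCl.isNonarchimedean 3) hq hg ha0 hac hc0 h1 hk h2
  have hinj : Function.Injective φ := φ.toRingHom.injective
  have h4 : (aeval xL F : L) = 1 ∨ (aeval xL F : L) = -1 := by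
    rcases h3 with h | h
    · left
      apply hinj
      rw [← aeval_algHom_apply, h, map_one]
    · right
      apply hinj
      rw [← aeval_algHom_apply, h, map_neg, map_one]
  have h5 : ((aeval xL F : L) : ℂ) = w := by
    have h6 := aeval_algebraMap_apply ℂ xL F
    rw [← hF']
    exact h6.symm
  rcases h4 with h | h
  · left
    rw [← h5, h]; rfl
  · right
    rw [← h5, h]; rfl

/-- the criterion -/
theorem crit {g : ℕ} (hg : 1 ≤ g) {a c : ℕ → ℤ} (ha0 : a 0 = 1)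
    (hac : ∀ i ≤ g, a i = bb g i + 3 * c i) (hc0 : (HH g c).coeff 0 % 3 = 2)
    (hroot : ∀ x : ℂ, aeval x (PP 2 g a) = 0 → ‖x‖ = Real.sqrt 2 ∧ x.im ≠ 0)
    (hcons : ∀ l : ℕ, l.Prime → ∃ k, (PP 2 g a).coeff k ≠ 0 ∧ ¬ l ∣ k) :
    Irreducible ((PP 2 g a).map (Int.castRingHom ℚ)) ∧
      ∀ x : ℂ, aeval x (PP 2 g a) = 0 → ∀ n : ℕ, 1 ≤ n →
      IntermediateField.adjoin ℚ {x ^ n} = IntermediateField.adjoin ℚ {x} := by
  have hirr := PP_irr hg ha0 (HH_irr hg ha0 hac hc0) hroot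
  refine ⟨hirr, ?_⟩
  intro x hx n hn
  have hm : (PP 2 g a).Monic := monic_PP (by omega) ha0
  have hxi : IsIntegral ℚ x := IsIntegral.tower_top (R := ℤ) ⟨_, hm, hx⟩
  have hx0 : x ≠ 0 := by
    rintro rfl
    have := (hroot 0 hx).2
    simp at this
  have hmin : minpoly ℚ x = (PP 2 g a).map (Int.castRingHom ℚ) := by
    symm
    refine minpoly.eq_of_irreducible_of_monic hirr ?_ (hm.map _)
    rw [← hx]
    exact aeval_map_algebraMap ℚ x (PP 2 g a)
  apply le_antisymm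
  · rw [adjoin_simple_le_iff]
    exact pow_mem (mem_adjoin_simple_self ℚ x) n
  · rw [adjoin_simple_le_iff]
    refine adjoin_pow hxi hx0 (ru_complex hg ha0 hac hc0 hx) ?_ n hn
    intro l hl
    obtain ⟨k, hk1, hk2⟩ := hcons l hl
    refine ⟨k, ?_, hk2⟩
    rw [hmin, coeff_map]
    simpa using hk1

end Pool.Agent.Zk70.WP
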