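import Pool.Agent.R80.WF.F0N

/-!
# Roots of unity in a field which is totally ramified at 3

`K` is a nonarchimedean field with `|3| < 1`, `x + 2/x = t` with `|t|^g = |3|` and `t^g/3 = 1` in the
residue field. Then the closure of `ℚ(t)` contains `x`, and its only roots of unity are `±1`.
-/

set_option autoImplicit false

namespace Pool.Agent.Zk70.WP

open Polynomial IntermediateField Pool.Agent.R80.WF

section loc

variable {K : Type} [NormedField K] [CharZero K]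

omit [CharZero K] in
theorem int_norm (hna : ∀ x y : K, ‖x + y‖ ≤ max ‖x‖ ‖y‖) (h3 : ‖((3 : ℕ) : K)‖ < 1) {n : ℤ}
    (hn : ¬ (3 : ℤ) ∣ n) : ‖(n : K)‖ = 1 := by
  have h1 : Nat.Coprime n.natAbs 3 := by
    rw [Nat.coprime_comm, Nat.Prime.coprime_iff_not_dvd Nat.prime_three]
    intro h
    apply hn
    rw [← Int.natAbs_dvd_natAbs]
    exact h
  have h2 := f0n_coprime hna h3 h1
  rcases Int.natAbs_eq n with h | h
  · rw [h, Int.cast_natCast]
    exact h2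
  · rw [h, Int.cast_neg, norm_neg, Int.cast_natCast]
    exact h2

theorem rat_dec {c : ℚ} (hc : c ≠ 0) : ∃ (v : ℤ) (a b : ℤ), ¬ (3 : ℤ) ∣ a ∧ ¬ (3 : ℤ) ∣ b ∧
    c = 3 ^ v * (a / b) := by
  have hn : c.num ≠ 0 := Rat.num_ne_zero.2 hc
  have hd : (c.den : ℤ) ≠ 0 := by exact_mod_cast c.den_ne_zero
  obtain ⟨a, ha, hna'⟩ := (Int.finiteMultiplicity_iff.2 ⟨by norm_num, hn⟩ :
    FiniteMultiplicity (3 : ℤ) c.num).exists_eq_pow_mul_and_not_dvd
  obtain ⟨b, hb, hnb'⟩ := (Int.finiteMultiplicity_iff.2 ⟨by norm_num, hd⟩ :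
    FiniteMultiplicity (3 : ℤ) c.den).exists_eq_pow_mul_and_not_dvd
  generalize multiplicity (3 : ℤ) c.num = i at ha
  generalize multiplicity (3 : ℤ) (c.den : ℤ) = j at hb
  refine ⟨(i : ℤ) - j, a, b, hna', hnb', ?_⟩
  have hb0 : b ≠ 0 := by
    rintro rfl
    exact hnb' (dvd_zero _)
  have h1 : c = (c.num : ℚ) / ((c.den : ℤ) : ℚ) := by
    rw [Int.cast_natCast, Rat.num_div_den]
  rw [h1, ha, hb]
  push_cast
  rw [zpow_sub₀ (by norm_num), zpow_natCast, zpow_natCast]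
  have hb0' : (b : ℚ) ≠ 0 := by exact_mod_cast hb0
  field_simp

theorem rat_norm (hna : ∀ x y : K, ‖x + y‖ ≤ max ‖x‖ ‖y‖) (h3 : ‖((3 : ℕ) : K)‖ < 1) {c : ℚ}
    (hc : c ≠ 0) : ∃ v : ℤ, ‖(c : K)‖ = ‖((3 : ℕ) : K)‖ ^ v := by
  obtain ⟨v, a, b, ha, hb, rfl⟩ := rat_dec hc
  refine ⟨v, ?_⟩
  push_cast
  rw [norm_mul, norm_div, int_norm hna h3 ha, int_norm hna h3 hb, norm_zpow]
  norm_num

theorem rat_res (hna : ∀ x y : K, ‖x + y‖ ≤ max ‖x‖ ‖y‖) (h3 : ‖((3 : ℕ) : K)‖ < 1) {c : ℚ}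
    (hc : ‖(c : K)‖ ≤ 1) : ∃ r : ℤ, (r = 0 ∨ r = 1 ∨ r = -1) ∧ ‖(c : K) - r‖ < 1 := by
  by_cases hc0 : c = 0
  · subst hc0
    exact ⟨0, Or.inl rfl, by simp⟩
  obtain ⟨v, a, b, ha, hb, rfl⟩ := rat_dec hc0
  have h30 : 0 < ‖((3 : ℕ) : K)‖ := norm_pos_iff.2 (by norm_num)
  have hnorm : ‖(((3 : ℚ) ^ v * (a / b) : ℚ) : K)‖ = ‖((3 : ℕ) : K)‖ ^ v := by
    push_cast
    rw [norm_mul, norm_div, int_norm hna h3 ha, int_norm hna h3 hb, norm_zpow]
    norm_num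
  rw [hnorm] at hc
  have hv : 0 ≤ v := by
    by_contra hv
    push Not at hv
    have := one_lt_zpow_of_neg₀ h30 h3 hv
    linarith
  rcases hv.eq_or_lt with hv | hv
  · -- unit
    subst hv
    have hb0 : (b : K) ≠ 0 := by
      intro h
      have := int_norm hna h3 hb
      rw [h, norm_zero] at this
      exact zero_ne_one this
    obtain ⟨r, hr, k, hk⟩ : ∃ r : ℤ, (r = 0 ∨ r = 1 ∨ r = -1) ∧ ∃ k : ℤ, a - r * b = 3 * k := by
      have h1 : a % 3 = 1 ∨ a % 3 = 2 := by omega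
      have h2 : b % 3 = 1 ∨ b % 3 = 2 := by omega
      rcases h1 with h1 | h1 <;> rcases h2 with h2 | h2
      · exact ⟨1, by simp, (a - b) / 3, by omega⟩
      · exact ⟨-1, by simp, (a + b) / 3, by omega⟩
      · exact ⟨-1, by simp, (a + b) / 3, by omega⟩
      · exact ⟨1, by simp, (a - b) / 3, by omega⟩
    refine ⟨r, hr, ?_⟩
    have e1 : (((3 : ℚ) ^ (0 : ℤ) * (a / b) : ℚ) : K) - r = ((3 : ℕ) : K) * k / b := by
      push_cast
      rw [one_mul, eq_div_iff hb0, sub_mul, div_mul_cancel₀ _ hb0]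
      have h5 := congrArg (fun z : ℤ => (z : K)) hk
      push_cast at h5
      exact h5
    rw [e1, norm_div, int_norm hna h3 hb, div_one, norm_mul]
    have := f0n_int hna k
    nlinarith
  · refine ⟨0, Or.inl rfl, ?_⟩
    rw [Int.cast_zero, sub_zero, hnorm]
    exact zpow_lt_one₀ h30 h3 hv

/-- the norms of the monomials are distinct -/
theorem mono_norm (hna : ∀ x y : K, ‖x + y‖ ≤ max ‖x‖ ‖y‖) (h3 : ‖((3 : ℕ) : K)‖ < 1) {g : ℕ}
    {t : K} (ht : ‖t‖ ^ g = ‖((3 : ℕ) : K)‖) {c : ℚ} (hc : c ≠ 0) (i : ℕ) :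
    ∃ v : ℤ, ‖(c : K) * t ^ i‖ ^ g = ‖((3 : ℕ) : K)‖ ^ (g * v + i) := by
  obtain ⟨v, hv⟩ := rat_norm hna h3 hc
  have h30 : ‖((3 : ℕ) : K)‖ ≠ 0 := norm_ne_zero_iff.2 (by norm_num)
  refine ⟨v, ?_⟩
  rw [norm_mul, mul_pow, hv, norm_pow, ← pow_mul, mul_comm i g, pow_mul, ht,
    zpow_add₀ h30, zpow_natCast, ← zpow_natCast, ← zpow_mul, mul_comm v]

theorem mono_inj (hna : ∀ x y : K, ‖x + y‖ ≤ max ‖x‖ ‖y‖) (h3 : ‖((3 : ℕ) : K)‖ < 1) {g : ℕ}
    {t : K} (ht : ‖t‖ ^ g = ‖((3 : ℕ) : K)‖) {c d : ℚ} (hc : c ≠ 0) (hd : d ≠ 0) {i j : ℕ}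
    (hi : i < g) (hj : j < g) (h : ‖(c : K) * t ^ i‖ = ‖(d : K) * t ^ j‖) : i = j := by
  obtain ⟨v, hv⟩ := mono_norm hna h3 ht hc i
  obtain ⟨w, hw⟩ := mono_norm hna h3 ht hd j
  have h30 : 0 < ‖((3 : ℕ) : K)‖ := norm_pos_iff.2 (by norm_num)
  rw [h, hw] at hv
  have h1 := zpow_right_injective₀ h30 h3.ne hv
  have h1' : (g : ℤ) * w + j = g * v + i := h1
  have h2 : (g : ℤ) * (w - v) = i - j := by linarith
  have h4 : w - v = 0 := by
    by_contra hne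
    have h5 : 1 ≤ |w - v| := Int.one_le_abs hne
    have h6 : |(g : ℤ) * (w - v)| = g * |w - v| := by rw [abs_mul, Nat.abs_cast]
    rw [h2] at h6
    have h7 : |(i : ℤ) - j| < g := by
      rw [abs_lt]
      constructor <;> omega
    nlinarith
  rw [h4, mul_zero] at h2
  omega

/-- the norm of an element of `ℚ(t)` -/
theorem sum_norm (hna : ∀ x y : K, ‖x + y‖ ≤ max ‖x‖ ‖y‖) (h3 : ‖((3 : ℕ) : K)‖ < 1) {g : ℕ}
    {t : K} (ht : ‖t‖ ^ g = ‖((3 : ℕ) : K)‖) (c : ℕ → ℚ)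
    (h0 : ∃ i < g, c i ≠ 0) : ∃ k < g, c k ≠ 0 ∧
      ‖∑ i ∈ Finset.range g, (c i : K) * t ^ i‖ = ‖(c k : K) * t ^ k‖ ∧
      ∀ i < g, ‖(c i : K) * t ^ i‖ ≤ ‖(c k : K) * t ^ k‖ := by
  have h30 : 0 < ‖((3 : ℕ) : K)‖ := norm_pos_iff.2 (by norm_num)
  obtain ⟨i0, hi0, hc0⟩ := h0
  have ht0 : t ≠ 0 := by
    rintro rfl
    rw [norm_zero, zero_pow (by omega)] at ht
    exact h30.ne ht
  obtain ⟨k, hk, hmax⟩ := Finset.exists_max_image (Finset.range g)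
    (fun i => ‖(c i : K) * t ^ i‖) ⟨i0, Finset.mem_range.2 hi0⟩
  have hk' := Finset.mem_range.1 hk
  have hck : c k ≠ 0 := by
    intro h
    have h1 := hmax i0 (Finset.mem_range.2 hi0)
    simp only [h, Rat.cast_zero, zero_mul, norm_zero] at h1
    have h2 : (c i0 : K) * t ^ i0 = 0 := norm_le_zero_iff.1 h1
    rcases mul_eq_zero.1 h2 with h4 | h4
    · exact hc0 (by exact_mod_cast h4)
    · exact pow_ne_zero _ ht0 h4
  refine ⟨k, hk', hck, ?_, fun i hi => hmax i (Finset.mem_range.2 hi)⟩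
  refine IsNonarchimedean.apply_sum_eq_of_lt (f := fun x : K => ‖x‖) hna (fun a => (norm_neg a).symm)
    hk ?_
  intro j hj hjk
  refine lt_of_le_of_ne (hmax j hj) fun heq => ?_
  have hcj : c j ≠ 0 := by
    intro h
    simp only [h, Rat.cast_zero, zero_mul, norm_zero] at heq
    have h2 := norm_eq_zero.1 heq.symm
    rcases mul_eq_zero.1 h2 with h4 | h4
    · exact hck (by exact_mod_cast h4)
    · exact pow_ne_zero _ ht0 h4
  exact hjk (mono_inj hna h3 ht hcj hck (Finset.mem_range.1 hj) hk' heq)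

theorem sum_val (hna : ∀ x y : K, ‖x + y‖ ≤ max ‖x‖ ‖y‖) (h3 : ‖((3 : ℕ) : K)‖ < 1) {g : ℕ}
    {t : K} (ht : ‖t‖ ^ g = ‖((3 : ℕ) : K)‖) (c : ℕ → ℚ) {s : K}
    (hs : s = ∑ i ∈ Finset.range g, (c i : K) * t ^ i) (hs0 : s ≠ 0) :
    ∃ j : ℤ, ‖s‖ ^ g = ‖((3 : ℕ) : K)‖ ^ j := by
  have h0 : ∃ i < g, c i ≠ 0 := by
    by_contra hcon
    push Not at hcon
    apply hs0
    rw [hs]
    refine Finset.sum_eq_zero fun i hi => ?_
    rw [hcon i (Finset.mem_range.1 hi), Rat.cast_zero, zero_mul]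
  obtain ⟨k, hk, hck, h1, -⟩ := sum_norm hna h3 ht c h0
  obtain ⟨v, hv⟩ := mono_norm hna h3 ht hck k
  exact ⟨_, by rw [hs, h1, hv]⟩

theorem sum_res (hna : ∀ x y : K, ‖x + y‖ ≤ max ‖x‖ ‖y‖) (h3 : ‖((3 : ℕ) : K)‖ < 1) {g : ℕ}
    (hg : 1 ≤ g) {t : K} (ht : ‖t‖ ^ g = ‖((3 : ℕ) : K)‖) (c : ℕ → ℚ) {s : K}
    (hs : s = ∑ i ∈ Finset.range g, (c i : K) * t ^ i) (hs1 : ‖s‖ ≤ 1) :
    ∃ r : ℤ, (r = 0 ∨ r = 1 ∨ r = -1) ∧ ‖s - r‖ < 1 := by
  have h30 : 0 < ‖((3 : ℕ) : K)‖ := norm_pos_iff.2 (by norm_num)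
  have hle : ∀ i < g, ‖(c i : K) * t ^ i‖ ≤ 1 := by
    by_cases h0 : ∃ i < g, c i ≠ 0
    · obtain ⟨k, hk, hck, h1, h2⟩ := sum_norm hna h3 ht c h0
      intro i hi
      refine (h2 i hi).trans ?_
      rw [← h1, ← hs]
      exact hs1
    · push Not at h0
      intro i hi
      rw [h0 i hi, Rat.cast_zero, zero_mul, norm_zero]
      exact zero_le_one
  have hlt : ∀ i < g, 1 ≤ i → ‖(c i : K) * t ^ i‖ < 1 := by
    intro i hi hi1
    refine lt_of_le_of_ne (hle i hi) fun heq => ?_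
    by_cases hci : c i = 0
    · rw [hci, Rat.cast_zero, zero_mul, norm_zero] at heq
      exact zero_ne_one heq
    · have h1 : ‖(c i : K) * t ^ i‖ = ‖((1 : ℚ) : K) * t ^ 0‖ := by
        rw [heq]; simp
      have := mono_inj hna h3 ht hci one_ne_zero hi (by omega) h1
      omega
  obtain ⟨m, rfl⟩ : ∃ m, g = m + 1 := ⟨g - 1, by omega⟩
  have h0 := hle 0 (by omega)
  rw [pow_zero, mul_one] at h0
  obtain ⟨r, hr, hr1⟩ := rat_res hna h3 h0
  refine ⟨r, hr, ?_⟩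
  have e1 : s - r = (∑ i ∈ Finset.range m, (c (i + 1) : K) * t ^ (i + 1)) + ((c 0 : K) - r) := by
    rw [hs, Finset.sum_range_succ', pow_zero, mul_one]
    ring
  rw [e1]
  refine (hna _ _).trans_lt (max_lt ?_ hr1)
  rcases Nat.eq_zero_or_pos m with hm | hm
  · subst hm
    simp
  · have hne : (Finset.range m).Nonempty := ⟨0, Finset.mem_range.2 hm⟩
    refine (IsNonarchimedean.apply_sum_le_sup (f := fun x : K => ‖x‖) hna hne).trans_lt ?_
    rw [Finset.sup'_lt_iff]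
    intro i hi
    exact hlt (i + 1) (by have := Finset.mem_range.1 hi; omega) (by omega)

/-- `x` is a limit of elements of `ℚ(t)` -/
theorem approx (hna : ∀ x y : K, ‖x + y‖ ≤ max ‖x‖ ‖y‖) (h3 : ‖((3 : ℕ) : K)‖ < 1) {t x : K}
    (ht1 : ‖t‖ < 1) (hx : x ^ 2 - t * x + 2 = 0) (hx1 : ‖x‖ = 1) : x ∈ closure (ℚ⟮t⟯ : Set K) := by
  have h2 : ‖(2 : K)‖ = 1 := by
    have := int_norm hna h3 (n := 2) (by norm_num)
    push_cast at this
    exact this
  -- the first approximation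
  obtain ⟨y0, hy0, hxy0⟩ : ∃ y ∈ ℚ⟮t⟯, ‖x - y‖ < 1 := by
    have h4 : ‖(x - 1) * (x + 1)‖ < 1 := by
      have e : (x - 1) * (x + 1) = t * x + -((3 : ℕ) : K) := by
        push_cast
        linear_combination hx
      rw [e]
      refine (hna _ _).trans_lt (max_lt ?_ ?_)
      · rw [norm_mul, hx1, mul_one]; exact ht1
      · rw [norm_neg]; exact h3
    rw [norm_mul] at h4
    rcases lt_or_ge ‖x - 1‖ 1 with h5 | h5
    · exact ⟨1, one_mem _, h5⟩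
    · refine ⟨-1, neg_mem (one_mem _), ?_⟩
      rw [sub_neg_eq_add]
      have := norm_nonneg (x + 1)
      nlinarith
  set δ : ℝ := ‖x - y0‖ with hδ
  have hδ0 : 0 ≤ δ := norm_nonneg _
  have key : ∀ n : ℕ, ∃ y ∈ ℚ⟮t⟯, ‖x - y‖ ≤ δ ^ (n + 1) := by
    intro n
    induction n with
    | zero => exact ⟨y0, hy0, by rw [zero_add, pow_one]⟩
    | succ n ih =>
      obtain ⟨y, hy, hxy⟩ := ih
      have hpow : δ ^ (n + 1) ≤ δ := by
        have := pow_le_of_le_one hδ0 hxy0.le (n := n + 1) (by omega)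
        exact this
      have hxy1 : ‖x - y‖ < 1 := lt_of_le_of_lt (hxy.trans hpow) hxy0
      have hd : ‖2 * y - t‖ = 1 := by
        have e : 2 * y - t = 2 * x + -(2 * (x - y) + t) := by ring
        have h5 : ‖2 * x‖ = 1 := by rw [norm_mul, h2, hx1, mul_one]
        rw [e, f0n_add_eq hna, h5]
        rw [norm_neg, h5]
        refine (hna _ _).trans_lt (max_lt ?_ ht1)
        rw [norm_mul, h2, one_mul]
        exact hxy1
      have hd0 : 2 * y - t ≠ 0 := by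
        intro h
        rw [h, norm_zero] at hd
        exact zero_ne_one hd
      have htE : t ∈ ℚ⟮t⟯ := mem_adjoin_simple_self ℚ t
      have h2E : (2 : K) ∈ ℚ⟮t⟯ := by
        have := IntermediateField.natCast_mem ℚ⟮t⟯ 2
        exact_mod_cast this
      refine ⟨y - (y ^ 2 - t * y + 2) / (2 * y - t), ?_, ?_⟩
      · refine sub_mem hy (div_mem ?_ ?_)
        · exact add_mem (sub_mem (pow_mem hy 2) (mul_mem htE hy)) h2E
        · exact sub_mem (mul_mem h2E hy) htE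
      · have e : x - (y - (y ^ 2 - t * y + 2) / (2 * y - t)) = -(x - y) ^ 2 / (2 * y - t) := by
          rw [eq_div_iff hd0, sub_mul, sub_mul, div_mul_cancel₀ _ hd0]
          linear_combination hx
        rw [e, norm_div, hd, div_one, norm_neg, norm_pow]
        have h6 := norm_nonneg (x - y)
        have h7 : ‖x - y‖ ≤ δ := hxy.trans hpow
        calc ‖x - y‖ ^ 2 = ‖x - y‖ * ‖x - y‖ := sq _
          _ ≤ δ ^ (n + 1) * δ := mul_le_mul hxy h7 h6 (by positivity)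
          _ = δ ^ (n + 1 + 1) := by ring
  rw [Metric.mem_closure_iff]
  intro ε hε
  obtain ⟨n, hn⟩ := exists_pow_lt_of_lt_one hε hxy0
  obtain ⟨y, hy, hxy⟩ := key n
  refine ⟨y, hy, ?_⟩
  rw [dist_eq_norm]
  refine lt_of_le_of_lt hxy (lt_of_le_of_lt ?_ hn)
  rw [pow_succ]
  exact mul_le_of_le_one_right (by positivity) hxy0.le

omit [CharZero K] in
/-- polynomials in `x` are limits of elements of `E` -/
theorem closure_aeval [Algebra ℚ K] (E : IntermediateField ℚ K) {x : K} (hx : x ∈ closure (E : Set K))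
    (F : ℚ[X]) : aeval x F ∈ closure (E : Set K) := by
  have hF : Continuous fun y : K => aeval y F := F.continuous_aeval
  have hmap : Set.MapsTo (fun y : K => aeval y F) (E : Set K) (E : Set K) := by
    intro y hy
    have h1 : (⟨y, hy⟩ : E) = ⟨y, hy⟩ := rfl
    have h2 : aeval y F = ((aeval (⟨y, hy⟩ : E) F : E) : K) := by
      have := aeval_algebraMap_apply K (⟨y, hy⟩ : E) F
      exact this
    show aeval y F ∈ (E : Set K)
    rw [h2]
    exact SetLike.coe_mem _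
  exact map_mem_closure (f := fun y : K => aeval y F) hF hx hmap

theorem elem_sum {t : K} {H : ℤ[X]} {g : ℕ} (hm : H.Monic) (hd : H.natDegree = g)
    (ht : aeval t H = 0) {s : K} (hs : s ∈ ℚ⟮t⟯) :
    ∃ c : ℕ → ℚ, s = ∑ i ∈ Finset.range g, (c i : K) * t ^ i := by
  have hmQ : (H.map (Int.castRingHom ℚ)).Monic := hm.map _
  have htQ : aeval t (H.map (Int.castRingHom ℚ)) = 0 := by
    rw [← ht]
    exact aeval_map_algebraMap ℚ t H
  have hint : IsIntegral ℚ t := ⟨_, hmQ, by simpa [aeval_def] using htQ⟩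
  have hs' : s ∈ (ℚ⟮t⟯).toSubalgebra := hs
  rw [adjoin_simple_toSubalgebra_of_isAlgebraic hint.isAlgebraic,
    Algebra.adjoin_singleton_eq_range_aeval] at hs'
  obtain ⟨F, hF⟩ := hs'
  have hF' : aeval t F = s := hF
  refine ⟨fun i => (F %ₘ (H.map (Int.castRingHom ℚ))).coeff i, ?_⟩
  rw [← hF', ← aeval_modByMonic_eq_self_of_root htQ]
  have hdeg : (F %ₘ (H.map (Int.castRingHom ℚ))).natDegree < g ∨
      F %ₘ (H.map (Int.castRingHom ℚ)) = 0 := by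
    by_cases h0 : F %ₘ (H.map (Int.castRingHom ℚ)) = 0
    · exact Or.inr h0
    · left
      have h1 := degree_modByMonic_lt F hmQ
      rw [degree_eq_natDegree h0, degree_eq_natDegree hmQ.ne_zero, hm.natDegree_map, hd] at h1
      exact_mod_cast h1
  rcases hdeg with h | h
  · rw [aeval_eq_sum_range' h]
    refine Finset.sum_congr rfl fun i _ => ?_
    rw [Algebra.smul_def]
    simp
  · rw [h]
    simp

/-- elements of norm one are congruent to `±1` -/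
theorem res_cl (hna : ∀ x y : K, ‖x + y‖ ≤ max ‖x‖ ‖y‖) (h3 : ‖((3 : ℕ) : K)‖ < 1) {t : K}
    {H : ℤ[X]} {g : ℕ} (hg : 1 ≤ g) (hm : H.Monic) (hd : H.natDegree = g) (ht : aeval t H = 0)
    (htg : ‖t‖ ^ g = ‖((3 : ℕ) : K)‖) {s : K} (hs : s ∈ closure (ℚ⟮t⟯ : Set K)) (hs1 : ‖s‖ = 1) :
    ∃ r : ℤ, (r = 1 ∨ r = -1) ∧ ‖s - r‖ < 1 := by
  rw [Metric.mem_closure_iff] at hs
  obtain ⟨y, hy, hsy⟩ := hs 1 one_pos
  rw [dist_eq_norm] at hsy
  obtain ⟨c, hc⟩ := elem_sum hm hd ht hy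
  have hy1 : ‖y‖ ≤ 1 := by
    have e : y = s + -(s - y) := by ring
    rw [e]
    refine (hna _ _).trans (max_le hs1.le ?_)
    rw [norm_neg]
    exact hsy.le
  obtain ⟨r, hr, hyr⟩ := sum_res hna h3 hg htg c hc hy1
  have hsr : ‖s - r‖ < 1 := by
    have e : s - r = (s - y) + (y - r) := by ring
    rw [e]
    exact (hna _ _).trans_lt (max_lt hsy hyr)
  rcases hr with h | h | h
  · rw [h, Int.cast_zero, sub_zero, hs1] at hsr
    exact absurd hsr (lt_irrefl _)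
  · exact ⟨r, Or.inl h, hsr⟩
  · exact ⟨r, Or.inr h, hsr⟩

/-- no square root of `-3` -/
theorem no_sqrt (hna : ∀ x y : K, ‖x + y‖ ≤ max ‖x‖ ‖y‖) (h3 : ‖((3 : ℕ) : K)‖ < 1) {t : K}
    {H : ℤ[X]} {g : ℕ} (hg : 1 ≤ g) (hm : H.Monic) (hd : H.natDegree = g) (ht : aeval t H = 0)
    (htg : ‖t‖ ^ g = ‖((3 : ℕ) : K)‖) (htg2 : ‖t ^ g - 3‖ < ‖((3 : ℕ) : K)‖) {s : K}
    (hs : s ∈ closure (ℚ⟮t⟯ : Set K)) : s ^ 2 ≠ -3 := by
  intro hs2
  have h30 : 0 < ‖((3 : ℕ) : K)‖ := norm_pos_iff.2 (by norm_num)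
  have h2 : ‖(2 : K)‖ = 1 := by
    have := int_norm hna h3 (n := 2) (by norm_num)
    push_cast at this
    exact this
  have hsn : ‖s‖ ^ 2 = ‖((3 : ℕ) : K)‖ := by
    rw [← norm_pow, hs2, norm_neg]
    norm_num
  have hs0 : 0 < ‖s‖ := by
    rcases (norm_nonneg s).eq_or_lt with h | h
    · rw [← h, zero_pow two_ne_zero] at hsn
      exact absurd hsn h30.ne
    · exact h
  rw [Metric.mem_closure_iff] at hs
  obtain ⟨y, hy, hsy⟩ := hs ‖s‖ hs0
  rw [dist_eq_norm] at hsy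
  have hyn : ‖y‖ = ‖s‖ := by
    have e : y = s + -(s - y) := by ring
    rw [e]
    refine f0n_add_eq hna ?_
    rw [norm_neg]
    exact hsy
  have hy0 : y ≠ 0 := by
    intro h
    rw [h, norm_zero] at hyn
    exact hs0.ne hyn
  obtain ⟨c, hc⟩ := elem_sum hm hd ht hy
  obtain ⟨j, hj⟩ := sum_val hna h3 htg c hc hy0
  -- `g = 2 j`
  have hgj : (g : ℤ) = 2 * j := by
    have h4 : ‖((3 : ℕ) : K)‖ ^ (g : ℤ) = ‖((3 : ℕ) : K)‖ ^ (2 * j) := by
      rw [two_mul, zpow_add₀ h30.ne', ← hj, hyn, zpow_natCast, ← hsn, ← pow_mul, ← pow_add]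
      congr 1
      ring
    exact zpow_right_injective₀ h30 h3.ne h4
  obtain ⟨m, hm'⟩ : ∃ m : ℕ, j = m := ⟨j.toNat, by omega⟩
  subst hm'
  have hgm : g = 2 * m := by exact_mod_cast hgj
  have ht0 : t ≠ 0 := by
    rintro rfl
    rw [norm_zero, zero_pow (by omega)] at htg
    exact h30.ne htg
  -- the unit `κ`
  set κ : K := y / t ^ m with hκ
  have htm : (‖t‖ ^ m) ^ 2 = ‖((3 : ℕ) : K)‖ := by
    rw [← htg, hgm, ← pow_mul, mul_comm]
  have htm0 : 0 < ‖t‖ ^ m := pow_pos (norm_pos_iff.2 ht0) m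
  have hκ1 : ‖κ‖ = 1 := by
    rw [hκ, norm_div, norm_pow, hyn, div_eq_one_iff_eq htm0.ne']
    rw [← hsn] at htm
    exact ((pow_left_inj₀ hs0.le htm0.le two_ne_zero).1 htm.symm)
  have hκE : κ ∈ ℚ⟮t⟯ := div_mem hy (pow_mem (mem_adjoin_simple_self ℚ t) m)
  obtain ⟨r, hr, hκr⟩ := res_cl hna h3 hg hm hd ht htg (subset_closure hκE) hκ1
  have hκ2 : ‖κ ^ 2 - 1‖ < 1 := by
    have e : κ ^ 2 - 1 = (κ - r) * (κ + r) := by
      have : (r : K) ^ 2 = 1 := by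
        rcases hr with rfl | rfl <;> simp
      linear_combination this
    rw [e, norm_mul]
    have h4 : ‖κ + r‖ ≤ 1 := (hna _ _).trans (max_le hκ1.le (f0n_int hna r))
    have h5 := norm_nonneg (κ - r)
    nlinarith
  -- `κ ^ 2 + 1` is small
  have hκ3 : ‖κ ^ 2 + 1‖ < 1 := by
    have e : κ ^ 2 + 1 = (-((s - y) * (s + y)) + (t ^ g - 3)) / t ^ g := by
      rw [eq_div_iff (pow_ne_zero _ ht0), hκ, hgm]
      have h6 : (y / t ^ m) ^ 2 * t ^ (2 * m) = y ^ 2 := by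
        rw [div_pow, ← pow_mul, mul_comm 2 m]
        exact div_mul_cancel₀ _ (pow_ne_zero _ ht0)
      rw [add_mul, h6]
      linear_combination hs2
    rw [e, norm_div, norm_pow, htg, div_lt_one h30]
    refine (hna _ _).trans_lt (max_lt ?_ htg2)
    rw [norm_neg, norm_mul]
    have h7 : ‖s + y‖ ≤ ‖s‖ := (hna _ _).trans (max_le le_rfl hyn.le)
    have h8 := norm_nonneg (s - y)
    rw [← hsn]
    nlinarith
  have h9 : ‖(2 : K)‖ < 1 := by
    have e : (2 : K) = (κ ^ 2 + 1) + -(κ ^ 2 - 1) := by ring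
    rw [e]
    refine (hna _ _).trans_lt (max_lt hκ3 ?_)
    rw [norm_neg]
    exact hκ2
  rw [h2] at h9
  exact lt_irrefl _ h9

/-- the roots of unity -/
theorem ru_cl (hna : ∀ x y : K, ‖x + y‖ ≤ max ‖x‖ ‖y‖) (h3 : ‖((3 : ℕ) : K)‖ < 1) {t : K}
    {H : ℤ[X]} {g : ℕ} (hg : 1 ≤ g) (hm : H.Monic) (hd : H.natDegree = g) (ht : aeval t H = 0)
    (htg : ‖t‖ ^ g = ‖((3 : ℕ) : K)‖) (htg2 : ‖t ^ g - 3‖ < ‖((3 : ℕ) : K)‖) {w : K}
    (hw : w ∈ closure (ℚ⟮t⟯ : Set K)) {k : ℕ} (hk : 1 ≤ k) (hwk : w ^ k = 1) :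
    w = 1 ∨ w = -1 := by
  have hw1 : ‖w‖ = 1 := f0n_norm_one (by omega) hwk
  have hstep : ∀ u ∈ closure (ℚ⟮t⟯ : Set K), ∀ n : ℕ, 1 ≤ n → u ^ n = 1 → ‖u - 1‖ < 1 → u = 1 := by
    intro u hu n hn hun hu1
    by_contra hne
    rcases f0n_ru hna Nat.prime_three h3 hn hun hne with ⟨a, ha, -⟩ | ⟨h4, -⟩
    · have hprim : IsPrimitiveRoot (u ^ 3 ^ a) 3 := by
        refine ha.pow (pow_pos (by norm_num) _) ?_
        rw [pow_succ]
      have hcyc : (u ^ 3 ^ a) ^ 2 + u ^ 3 ^ a + 1 = 0 := by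
        have h5 := hprim.geom_sum_eq_zero (by norm_num)
        rw [Finset.sum_range_succ, Finset.sum_range_succ, Finset.sum_range_one] at h5
        linear_combination h5
      have h6 := closure_aeval ℚ⟮t⟯ hu (2 * X ^ 3 ^ a + 1)
      refine no_sqrt hna h3 hg hm hd ht htg htg2 h6 ?_
      simp only [map_add, map_mul, map_pow, aeval_X, map_one, map_ofNat]
      linear_combination 4 * hcyc
    · rw [h4] at hu1
      exact lt_irrefl _ hu1
  obtain ⟨r, hr, hwr⟩ := res_cl hna h3 hg hm hd ht htg hw hw1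
  rcases hr with rfl | rfl
  · left
    exact hstep w hw k hk hwk (by simpa using hwr)
  · right
    have h4 := closure_aeval ℚ⟮t⟯ hw (-X)
    simp only [map_neg, aeval_X] at h4
    have h5 := hstep (-w) h4 (2 * k) (by omega) (by
      rw [pow_mul, neg_sq, ← pow_mul, mul_comm, pow_mul, hwk, one_pow]) (by
      rw [← norm_neg]
      have e : -(-w - 1) = w - ((-1 : ℤ) : K) := by push_cast; ring
      rw [e]
      exact hwr)
    rw [← h5, neg_neg]

end loc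

end Pool.Agent.Zk70.WP
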