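import Pool.Agent.R80.WF.Root

/-!
# Location of the roots, slit plane version

A variant of `Pool.Agent.R80.WF.root`: it is enough that the function on the circle avoids the
nonpositive reals; the roots are then not real.
-/

set_option autoImplicit false

namespace Pool.Agent.Zk70.WP

open Polynomial Complex Pool.Agent.R80.WF Pool.Agent.R80.WF.RootAux

theorem root2 (p g : ℕ) (a : ℕ → ℤ) (hp : 1 ≤ p) (hg : 1 ≤ g)
    (hsl : ∀ t : ℝ, hh (fun i => (a i : ℝ) * (Real.sqrt p)⁻¹ ^ i) g t ∈ slitPlane) (x : ℂ)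
    (hx : aeval x (PP p g a) = 0) : ‖x‖ = Real.sqrt p ∧ x.im ≠ 0 := by
  set q : ℝ := Real.sqrt p with hq
  have hp' : (0 : ℝ) < p := by exact_mod_cast hp
  have hq0 : 0 < q := Real.sqrt_pos.mpr hp'
  have hqq : (q : ℂ) ^ 2 = (p : ℂ) := by
    rw [← ofReal_pow, hq, Real.sq_sqrt hp'.le, ofReal_natCast]
  set c : ℕ → ℝ := fun i => (a i : ℝ) * q⁻¹ ^ i with hc
  have him0 : (hh c g 0).im = 0 := by
    rw [hh_im]
    simp
  have himπ : (hh c g Real.pi).im = 0 := by
    rw [hh_im]
    simp [Real.sin_nat_mul_pi]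
  have hre0 : 0 < (hh c g 0).re := by
    rcases mem_slitPlane_iff.1 (hsl 0) with h | h
    · exact h
    · exact absurd him0 h
  have hreπ : 0 < (hh c g Real.pi).re := by
    rcases mem_slitPlane_iff.1 (hsl Real.pi) with h | h
    · exact h
    · exact absurd himπ h
  -- the value of the polynomial on the circle
  have hev : ∀ t : ℝ, aeval ((q : ℂ) * U t) (PP p g a) =
      2 * (q : ℂ) ^ (2 * g) * U t ^ g * ((GG c g t : ℝ) : ℂ) := by
    intro t
    have e1 : aeval ((q : ℂ) * U t) (PP p g a) = ∑ i ∈ Finset.range g, ((a i : ℝ) : ℂ) *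
        (((q : ℂ) * U t) ^ (2 * g - i) + ((q : ℂ) ^ 2) ^ (g - i) * ((q : ℂ) * U t) ^ i) +
        ((a g : ℝ) : ℂ) * ((q : ℂ) * U t) ^ g := by
      rw [hqq]
      simp [PP, map_sum]
    rw [e1, GG, ofReal_add, ofReal_sum, mul_add, Finset.mul_sum]
    congr 1
    · apply Finset.sum_congr rfl
      intro i hi
      have hi' : i < g := Finset.mem_range.mp hi
      obtain ⟨k, rfl⟩ := Nat.exists_eq_add_of_lt hi'
      have h1 : 2 * (i + k + 1) - i = i + 2 * (k + 1) := by omega
      have h2 : i + k + 1 - i = k + 1 := by omega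
      have h3 : i + k + 1 = i + (k + 1) := by omega
      rw [h1, h2, h3, term q hq0 t i (k + 1) (a i)]
    · have hq' : (q : ℂ) ≠ 0 := by exact_mod_cast hq0.ne'
      have hqi : (q : ℂ) ^ (2 * g) * ((q : ℂ)⁻¹) ^ g = (q : ℂ) ^ g := by
        rw [inv_pow, ← div_eq_mul_inv, div_eq_iff (pow_ne_zero _ hq')]
        ring
      rw [hc]
      push_cast
      calc ((a g : ℤ) : ℂ) * ((q : ℂ) * U t) ^ g
          = ((a g : ℤ) : ℂ) * (q : ℂ) ^ g * U t ^ g := by ring
        _ = ((a g : ℤ) : ℂ) * ((q : ℂ) ^ (2 * g) * ((q : ℂ)⁻¹) ^ g) * U t ^ g := by rw [hqi]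
        _ = _ := by ring
  -- the argument
  set φ : ℝ → ℝ := fun t => g * t + arg (hh c g t) with hφ
  have hφc : ContinuousOn φ (Set.Icc 0 Real.pi) := by
    apply Continuous.continuousOn
    apply Continuous.add (by fun_prop)
    rw [continuous_iff_continuousAt]
    intro t
    exact (continuousAt_arg (hsl t)).comp (hh_cont c g).continuousAt
  have hφ0 : φ 0 = 0 := by
    have : arg (hh c g 0) = 0 := by
      rw [arg_eq_zero_iff]
      exact ⟨hre0.le, him0⟩
    simp only [hφ]
    rw [this, mul_zero, add_zero]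
  have hφπ : φ Real.pi = g * Real.pi := by
    have : arg (hh c g Real.pi) = 0 := by
      rw [arg_eq_zero_iff]
      exact ⟨hreπ.le, himπ⟩
    simp only [hφ]
    rw [this, add_zero]
  have hG : ∀ t, GG c g t = ‖hh c g t‖ * Real.cos (φ t) := by
    intro t
    rw [← hh_GG]
    have e : U (g * t) * hh c g t = (‖hh c g t‖ : ℂ) * U (φ t) := by
      rw [hφ, U_add]
      have e2 : (‖hh c g t‖ : ℂ) * U (arg (hh c g t)) = hh c g t := norm_mul_exp_arg_mul_I _
      calc U (g * t) * hh c g t
          = U (g * t) * ((‖hh c g t‖ : ℂ) * U (arg (hh c g t))) := by rw [e2]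
        _ = _ := by ring
    rw [e, re_ofReal_mul, U_re]
  have hex : ∀ m : Fin g, ∃ t ∈ Set.Icc (0 : ℝ) Real.pi, φ t = (m + 1 / 2) * Real.pi := by
    intro m
    have hm : ((m : ℕ) : ℝ) + 1 ≤ g := by exact_mod_cast m.2
    have hπ := Real.pi_pos
    have hmem : ((m : ℕ) + 1 / 2 : ℝ) * Real.pi ∈ Set.Icc (φ 0) (φ Real.pi) := by
      rw [hφ0, hφπ]
      constructor
      · positivity
      · apply mul_le_mul_of_nonneg_right _ hπ.le
        linarith
    exact intermediate_value_Icc hπ.le hφc hmem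
  choose t ht hφt using hex
  have hcos0 : ∀ m : Fin g, Real.cos ((m + 1 / 2) * Real.pi) = 0 := by
    intro m
    rw [Real.cos_eq_zero_iff]
    exact ⟨(m : ℕ), by push_cast; ring⟩
  have hGt : ∀ m, GG c g (t m) = 0 := by
    intro m
    rw [hG, hφt, hcos0, mul_zero]
  have hsin : ∀ m, 0 < Real.sin (t m) := by
    intro m
    have hπ := Real.pi_pos
    have hm : ((m : ℕ) : ℝ) + 1 ≤ g := by exact_mod_cast m.2
    have hm0 : (0 : ℝ) ≤ ((m : ℕ) : ℝ) := Nat.cast_nonneg _
    apply Real.sin_pos_of_mem_Ioo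
    constructor
    · refine lt_of_le_of_ne (ht m).1 (fun h => ?_)
      have h1 := hφt m
      rw [← h, hφ0] at h1
      nlinarith
    · refine lt_of_le_of_ne (ht m).2 (fun h => ?_)
      have h1 := hφt m
      rw [h, hφπ] at h1
      nlinarith
  -- the points
  set pt : Fin g × Bool → ℂ := fun w => (q : ℂ) * U (if w.2 then t w.1 else -t w.1) with hpt
  have hinj : Function.Injective pt := by
    rintro ⟨m, b⟩ ⟨m', b'⟩ h
    have h1 : (pt (m, b)).re = (pt (m', b')).re := by rw [h]
    have h2 : (pt (m, b)).im = (pt (m', b')).im := by rw [h]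
    simp only [hpt, re_ofReal_mul, im_ofReal_mul, U_re, U_im] at h1 h2
    have s1 := hsin m
    have s2 := hsin m'
    have h1' := mul_left_cancel₀ hq0.ne' h1
    have h2' := mul_left_cancel₀ hq0.ne' h2
    have hb : b = b' := by
      cases b <;> cases b' <;> simp at h2' ⊢ <;> linarith
    have hcc : Real.cos (t m) = Real.cos (t m') := by
      cases b <;> cases b' <;> simpa using h1'
    have htt : t m = t m' := Real.injOn_cos (ht m) (ht m') hcc
    have hmm : m = m' := by
      have e1 := hφt m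
      rw [htt, hφt m'] at e1
      have e2 := mul_right_cancel₀ Real.pi_pos.ne' e1
      have e3 : ((m' : ℕ) : ℝ) = ((m : ℕ) : ℝ) := by linarith
      exact Fin.ext (by exact_mod_cast e3.symm)
    rw [hb, hmm]
  have hGneg : ∀ s, GG c g (-s) = GG c g s := by
    intro s
    unfold GG
    congr 1
    apply Finset.sum_congr rfl
    intro i _
    rw [mul_neg, Real.cos_neg]
  have hroot : ∀ w, aeval (pt w) (PP p g a) = 0 := by
    rintro ⟨m, b⟩
    simp only [hpt]
    rw [hev]
    cases b
    · simp [hGneg, hGt]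
    · simp [hGt]
  set Q : ℂ[X] := (PP p g a).map (Int.castRingHom ℂ) with hQ
  have hQev : ∀ z : ℂ, Q.eval z = aeval z (PP p g a) := by
    intro z
    rw [hQ, eval_map, aeval_def]
    rfl
  have hQ0 : Q ≠ 0 := by
    intro h0
    have h1 := hev 0
    rw [← hQev, h0, eval_zero] at h1
    have h2 : GG c g 0 = (hh c g 0).re := by
      rw [← hh_GG]
      simp [U]
    have h3 := hre0
    rw [← h2] at h3
    have hq' : (q : ℂ) ≠ 0 := by exact_mod_cast hq0.ne'
    have h4 : ((GG c g 0 : ℝ) : ℂ) ≠ 0 := by exact_mod_cast h3.ne'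
    exact mul_ne_zero (mul_ne_zero (mul_ne_zero two_ne_zero (pow_ne_zero _ hq'))
      (pow_ne_zero _ (U_ne 0))) h4 h1.symm
  have hdeg : Q.natDegree ≤ 2 * g := by
    refine (natDegree_map_le).trans ?_
    unfold PP
    refine natDegree_add_le_of_degree_le ?_ ?_
    · apply natDegree_sum_le_of_forall_le
      intro i hi
      have hi' : i < g := Finset.mem_range.mp hi
      refine (natDegree_C_mul_le _ _).trans ?_
      refine natDegree_add_le_of_degree_le ?_ ?_
      · rw [natDegree_X_pow]; omega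
      · refine (natDegree_C_mul_le _ _).trans ?_
        rw [natDegree_X_pow]; omega
    · refine (natDegree_C_mul_le _ _).trans ?_
      rw [natDegree_X_pow]; omega
  classical
  have hsub : Finset.univ.image pt ⊆ Q.roots.toFinset := by
    intro z hz
    obtain ⟨w, -, rfl⟩ := Finset.mem_image.mp hz
    rw [Multiset.mem_toFinset, mem_roots hQ0, IsRoot, hQev]
    exact hroot w
  have hcard : Q.roots.toFinset.card ≤ (Finset.univ.image pt).card := by
    rw [Finset.card_image_of_injective _ hinj, Finset.card_univ, Fintype.card_prod,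
      Fintype.card_fin, Fintype.card_bool]
    refine (Multiset.toFinset_card_le _).trans ((card_roots' Q).trans ?_)
    omega
  have heq := Finset.eq_of_subset_of_card_le hsub hcard
  have hxm : x ∈ Finset.univ.image pt := by
    rw [heq, Multiset.mem_toFinset, mem_roots hQ0, IsRoot, hQev]
    exact hx
  obtain ⟨w, -, rfl⟩ := Finset.mem_image.mp hxm
  simp only [hpt]
  constructor
  · rw [norm_mul, norm_U, mul_one, norm_real, Real.norm_of_nonneg hq0.le]
  · rw [im_ofReal_mul, U_im]
    have h1 := hsin w.1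
    refine mul_ne_zero hq0.ne' ?_
    split_ifs
    · exact h1.ne'
    · rw [Real.sin_neg]
      exact neg_ne_zero.2 h1.ne'

end Pool.Agent.Zk70.WP
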