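import Pool.Agent.Zk70.WP.Big

/-!
# Roots located by sign changes
-/

set_option autoImplicit false

namespace Pool.Agent.Zk70.WP

open Polynomial Finset Pool.Agent.R80.WF

/-- a monic polynomial of degree `g` with `g` sign changes -/
theorem sign_roots {g : ℕ} {H : ℤ[X]} (hm : H.Monic) (hd : H.natDegree = g) (t : ℕ → ℝ)
    (ht : ∀ i < g, t i < t (i + 1)) (hs : ∀ i ≤ g, 0 < (-1 : ℝ) ^ (g - i) * aeval (t i) H) (z : ℂ)
    (hz : aeval z H = 0) : ∃ r : ℝ, z = r ∧ t 0 < r ∧ r < t g := by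
  have hcont : Continuous fun s : ℝ => aeval s H := H.continuous_aeval
  have hex : ∀ i : Fin g, ∃ r : ℝ, t i < r ∧ r < t (i + 1) ∧ aeval r H = 0 := by
    intro i
    have h1 := hs i i.2.le
    have h2 := hs (i + 1) i.2
    have e : g - (i : ℕ) = g - (i + 1) + 1 := by omega
    rw [e, pow_succ] at h1
    have hlt := ht i i.2
    rcases neg_one_pow_eq_or ℝ (g - (i + 1)) with h3 | h3
    · rw [h3] at h1 h2
      obtain ⟨r, ⟨hr1, hr2⟩, hr3⟩ := intermediate_value_Ioo hlt.le hcont.continuousOn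
        (show (0 : ℝ) ∈ Set.Ioo (aeval (t i) H) (aeval (t (i + 1)) H) by
          constructor <;> linarith)
      exact ⟨r, hr1, hr2, hr3⟩
    · rw [h3] at h1 h2
      obtain ⟨r, ⟨hr1, hr2⟩, hr3⟩ := intermediate_value_Ioo' hlt.le hcont.continuousOn
        (show (0 : ℝ) ∈ Set.Ioo (aeval (t (i + 1)) H) (aeval (t i) H) by
          constructor <;> linarith)
      exact ⟨r, hr1, hr2, hr3⟩
  choose r hr1 hr2 hr3 using hex
  have hmono : ∀ i j, i ≤ j → j ≤ g → t i ≤ t j := by
    intro i j hij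
    induction j, hij using Nat.le_induction with
    | base => intro _; exact le_rfl
    | succ j hij ih => intro hj; exact (ih (by omega)).trans (ht j (by omega)).le
  have hrlt : ∀ i j : Fin g, i < j → r i < r j := by
    intro i j hij
    have h1 := hmono (i + 1) j (by exact_mod_cast hij) j.2.le
    linarith [hr2 i, hr1 j]
  have hinj : Function.Injective fun i => ((r i : ℝ) : ℂ) := by
    intro i j h
    have h' : r i = r j := Complex.ofReal_injective h
    rcases lt_trichotomy i j with h1 | h1 | h1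
    · exact absurd h' (hrlt i j h1).ne
    · exact h1
    · exact absurd h' (hrlt j i h1).ne'
  set Q : ℂ[X] := H.map (Int.castRingHom ℂ) with hQ
  have hQ0 : Q ≠ 0 := (hm.map _).ne_zero
  have hQev : ∀ z : ℂ, Q.eval z = aeval z H := by
    intro z
    rw [hQ, eval_map, aeval_def]
    rfl
  classical
  have hsub : univ.image (fun i => ((r i : ℝ) : ℂ)) ⊆ Q.roots.toFinset := by
    intro z hz
    obtain ⟨i, -, rfl⟩ := mem_image.mp hz
    rw [Multiset.mem_toFinset, mem_roots hQ0, IsRoot, hQev]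
    have h1 := aeval_algebraMap_apply ℂ (r i) H
    rw [hr3 i, map_zero] at h1
    exact h1
  have hcard : Q.roots.toFinset.card ≤ (univ.image fun i => ((r i : ℝ) : ℂ)).card := by
    rw [card_image_of_injective _ hinj, card_univ, Fintype.card_fin]
    refine (Multiset.toFinset_card_le _).trans ((card_roots' Q).trans ?_)
    rw [hQ, hm.natDegree_map, hd]
  have heq := eq_of_subset_of_card_le hsub hcard
  have hzm : z ∈ univ.image fun i => ((r i : ℝ) : ℂ) := by
    rw [heq, Multiset.mem_toFinset, mem_roots hQ0, IsRoot, hQev]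
    exact hz
  obtain ⟨i, -, rfl⟩ := mem_image.mp hzm
  refine ⟨r i, rfl, ?_, ?_⟩
  · have := hmono 0 i (Nat.zero_le _) i.2.le
    linarith [hr1 i]
  · have := hmono (i + 1) g i.2 le_rfl
    linarith [hr2 i]

/-- from the roots of `HH` to the roots of `PP` -/
theorem circle_of_real {g : ℕ} {a : ℕ → ℤ} (hg : 1 ≤ g) (ha0 : a 0 = 1)
    (h : ∀ z : ℂ, aeval z (HH g a) = 0 → ∃ r : ℝ, z = r ∧ r ^ 2 < 8) (x : ℂ)
    (hx : aeval x (PP 2 g a) = 0) : ‖x‖ = Real.sqrt 2 ∧ x.im ≠ 0 := by
  have hx0 : x ≠ 0 := by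
    rintro rfl
    rw [aeval_def, eval₂_at_zero, coeff_PP, if_pos (by omega), ha0, mul_one, Nat.sub_zero,
      map_pow] at hx
    have h2 := pow_eq_zero_iff (by omega : g ≠ 0) |>.1 hx
    norm_num at h2
  have hxy : x * (2 / x) = 2 := mul_div_cancel₀ _ hx0
  rw [PP_HH g a x (2 / x) hxy] at hx
  obtain ⟨r, hr, hr2⟩ := h _ ((mul_eq_zero.1 hx).resolve_left (pow_ne_zero _ hx0))
  have hq : x ^ 2 - r * x + 2 = 0 := by
    rw [← hr]
    field_simp
    ring
  have hre := congrArg Complex.re hq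
  have him := congrArg Complex.im hq
  simp only [pow_two, Complex.add_re, Complex.sub_re, Complex.mul_re, Complex.ofReal_re,
    Complex.ofReal_im, Complex.zero_re, Complex.add_im, Complex.sub_im, Complex.mul_im,
    Complex.zero_im, Complex.re_ofNat, Complex.im_ofNat] at hre him
  have hi : x.im ≠ 0 := by
    intro h0
    rw [h0] at hre
    nlinarith [sq_nonneg (x.re - r / 2)]
  refine ⟨?_, hi⟩
  have h1 : 2 * x.re = r := by
    have : x.im * (2 * x.re - r) = 0 := by linarith
    rcases mul_eq_zero.1 this with h2 | h2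
    · exact absurd h2 hi
    · linarith
  have h2 : Complex.normSq x = 2 := by
    rw [Complex.normSq_apply]
    linear_combination -hre + x.re * h1
  rw [Complex.norm_def, h2]

/-! ### integer evaluation -/

/-- `1024^n D_n(m/1024)` together with the next value -/
def dd (m : ℤ) (n : ℕ) : ℤ × ℤ :=
  Nat.rec (2, m) (fun _ p => (p.2, m * p.2 - 2097152 * p.1)) n

theorem dd_spec (m : ℤ) (n : ℕ) :
    (((dd m n).1 : ℤ) : ℝ) = 1024 ^ n * aeval ((m : ℝ) / 1024) (dickson 1 (2 : ℤ) n) ∧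
    (((dd m n).2 : ℤ) : ℝ) = 1024 ^ (n + 1) * aeval ((m : ℝ) / 1024) (dickson 1 (2 : ℤ) (n + 1)) := by
  induction n with
  | zero =>
    constructor
    · rw [dickson_zero]
      have : ((3 : ℤ[X]) - ((1 : ℕ) : ℤ[X])) = C 2 := by norm_num
      rw [this, aeval_C]
      norm_num [dd]
    · rw [zero_add, dickson_one, aeval_X]
      have : (dd m 0).2 = m := rfl
      rw [this]
      ring
  | succ n ih =>
    obtain ⟨h1, h2⟩ := ih
    constructor
    · have : (dd m (n + 1)).1 = (dd m n).2 := rfl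
      rw [this, h2]
    · have : (dd m (n + 1)).2 = m * (dd m n).2 - 2097152 * (dd m n).1 := rfl
      rw [this]
      push_cast
      rw [h1, h2, show n + 1 + 1 = n + 2 by ring, dickson_add_two]
      simp only [map_sub, map_mul, aeval_X, aeval_C]
      simp only [algebraMap_int_eq, eq_intCast]
      push_cast
      ring

/-- `1024^g H(m/1024)` -/
def ev (g : ℕ) (a : ℕ → ℤ) (m : ℤ) : ℤ :=
  sumTo g (fun i => a i * 1024 ^ i * (dd m (g - i)).1) + a g * 1024 ^ g

theorem ev_spec (g : ℕ) (a : ℕ → ℤ) (m : ℤ) :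
    ((ev g a m : ℤ) : ℝ) = 1024 ^ g * aeval ((m : ℝ) / 1024) (HH g a) := by
  unfold ev HH
  rw [sumTo_eq, map_add, map_sum, mul_add, mul_sum]
  push_cast
  congr 1
  · refine sum_congr rfl fun i hi => ?_
    have hi' := mem_range.1 hi
    rw [(dd_spec m (g - i)).1, map_mul, aeval_C]
    simp only [algebraMap_int_eq, eq_intCast]
    have e : (1024 : ℝ) ^ g = 1024 ^ i * 1024 ^ (g - i) := by
      rw [← pow_add]
      congr 1
      omega
    rw [e]
    ring
  · rw [aeval_C]
    simp only [algebraMap_int_eq, eq_intCast]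
    ring

/-- `D_n(0)` -/
def dz (n : ℕ) : ℤ := if n % 2 = 0 then 2 * (-2) ^ (n / 2) else 0

theorem dz_spec (n : ℕ) : (dickson 1 (2 : ℤ) n).coeff 0 = dz n := by
  have hrec : ∀ m : ℕ, (dickson 1 (2 : ℤ) (m + 2)).coeff 0 = -2 * (dickson 1 (2 : ℤ) m).coeff 0 := by
    intro m
    rw [dickson_add_two, coeff_sub, coeff_C_mul, mul_comm X, coeff_mul_X_zero]
    ring
  induction n using Nat.twoStepInduction with
  | zero =>
    rw [dickson_zero]
    have : ((3 : ℤ[X]) - ((1 : ℕ) : ℤ[X])) = C 2 := by norm_num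
    rw [this, coeff_C_zero]
    rfl
  | one => rw [dickson_one, coeff_X_zero]; rfl
  | more n h1 _ =>
    rw [hrec, h1]
    unfold dz
    have e : (n + 2) / 2 = n / 2 + 1 := by omega
    have e2 : (n + 2) % 2 = n % 2 := by omega
    rw [e, e2]
    split_ifs
    · rw [pow_succ]; ring
    · ring

/-- data for one pair `(g, f)` -/
structure Sm where
  g : ℕ
  f : ℕ
  a : List ℤ
  m : List ℤ

def Sm.A (e : Sm) (i : ℕ) : ℤ := e.a.getD i 0
def Sm.M (e : Sm) (i : ℕ) : ℤ := e.m.getD i 0

def Sm.chk (e : Sm) : Bool :=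
  decide (1 ≤ e.g) && decide (e.f ≤ e.g) && decide (e.A 0 = 1) &&
  (List.range (e.g + 1)).all (fun i => decide ((e.A i - bb e.g i) % 3 = 0) &&
    (if i < e.f then true else if i = e.f then decide (e.A i % 2 = 1) else decide (e.A i % 2 = 0))) &&
  (List.range e.g).any (fun i => decide (e.A i ≠ 0) && decide (e.A (i + 1) ≠ 0)) &&
  decide ((sumTo e.g (fun i => (e.A i - bb e.g i) / 3 * dz (e.g - i)) +
    (e.A e.g - bb e.g e.g) / 3) % 3 = 2) &&
  (List.range e.g).all (fun i => decide (e.M i < e.M (i + 1))) &&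
  (List.range (e.g + 1)).all (fun i => decide (0 < (-1) ^ (e.g - i) * ev e.g e.A (e.M i))) &&
  decide (-2896 ≤ e.M 0) && decide (e.M e.g ≤ 2896)

theorem Sm.good (e : Sm) (h : e.chk = true) : Good 2 e.g e.f := by
  unfold Sm.chk at h
  simp only [Bool.and_eq_true, decide_eq_true_iff, List.all_eq_true, List.any_eq_true,
    List.mem_range] at h
  obtain ⟨⟨⟨⟨⟨⟨⟨⟨⟨h1, h2⟩, h3⟩, h4⟩, i0, hi0, h5, h6⟩, h7⟩, h8⟩, h9⟩, h10⟩, h11⟩ := h
  refine good_of (a := e.A) (c := fun i => (e.A i - bb e.g i) / 3) h1 h2 h3 ?_ ?_ ?_ ?_ ?_ ?_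
  · intro i hi
    have := (h4 i (by omega)).1
    omega
  · rw [← h7]
    congr 1
    unfold HH
    rw [coeff_add, finsetSum_coeff, coeff_C_zero, sumTo_eq]
    congr 1
    refine sum_congr rfl fun i _ => ?_
    rw [coeff_C_mul, dz_spec]
  · refine circle_of_real h1 h3 fun z hz => ?_
    obtain ⟨hm, hd⟩ := HH_deg h1 h3
    obtain ⟨r, hr, hr1, hr2⟩ := sign_roots hm hd (fun i => (e.M i : ℝ) / 1024) (by
      intro i hi
      have := h8 i hi
      have h12 : (e.M i : ℝ) < e.M (i + 1) := by exact_mod_cast this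
      linarith) (by
      intro i hi
      have := h9 i (by omega)
      have h12 : (0 : ℝ) < (-1) ^ (e.g - i) * ev e.g e.A (e.M i) := by exact_mod_cast this
      rw [ev_spec] at h12
      have h13 : (0 : ℝ) < 1024 ^ e.g := by positivity
      have h14 : (-1 : ℝ) ^ (e.g - i) * (1024 ^ e.g * aeval ((e.M i : ℝ) / 1024) (HH e.g e.A)) =
          1024 ^ e.g * ((-1 : ℝ) ^ (e.g - i) * aeval ((e.M i : ℝ) / 1024) (HH e.g e.A)) := by ring
      rw [h14] at h12
      exact (mul_pos_iff_of_pos_left h13).1 h12) z hz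
    refine ⟨r, hr, ?_⟩
    have h12 : (-2896 : ℝ) ≤ e.M 0 := by exact_mod_cast h10
    have h13 : (e.M e.g : ℝ) ≤ 2896 := by exact_mod_cast h11
    nlinarith
  · exact ⟨i0, hi0, h5, h6⟩
  · have := (h4 e.f (by omega)).2
    rw [if_neg (lt_irrefl _), if_pos rfl, decide_eq_true_iff] at this
    exact this
  · intro i hi1 hi2
    have := (h4 i (by omega)).2
    rw [if_neg (by omega), if_neg (by omega), decide_eq_true_iff] at this
    exact this

end Pool.Agent.Zk70.WP
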